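import Pool.Agent.MP_88e4f4_nt.TQ.Q3
import Pool.Agent.MP_88e4f4_nt.TK.K6

set_option autoImplicit false

namespace Pool.Agent.MP_88e4f4_nt.TQ

open Pool.Agent.MP_88e4f4_nt.GB Pool.Agent.MP_88e4f4_nt.TS Pool.Agent.MP_88e4f4_nt.TK

/-- For fixed `y` and `m ≥ 400 κ ^ 3` there are only finitely many solutions with
`y ≤ gcd(x, y) ^ κ`. -/
theorem finite_fixed_q (κ y m : ℕ) (hκ : 1 ≤ κ) (hm : 400 * κ ^ 3 ≤ m) :
    {p : ℕ × ℕ | Sol p.1 y m p.2 ∧ y ≤ (Nat.gcd p.1 y) ^ κ}.Finite := by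
  by_contra hinf
  set A : Set (ℕ × ℕ) := {p : ℕ × ℕ | Sol p.1 y m p.2 ∧ y ≤ (Nat.gcd p.1 y) ^ κ} with hA
  have hinj : Set.InjOn Prod.fst A := by
    rintro ⟨x, n⟩ ⟨h, -⟩ ⟨x', n'⟩ ⟨h', -⟩ hxx
    simp only at h h' hxx
    subst hxx
    obtain ⟨hy, -, -, -, he⟩ := h
    obtain ⟨-, -, -, -, he'⟩ := h'
    rcases lt_trichotomy n n' with hlt | heq | hgt
    · have := rep_strict_len (k := n) (l := n') hy hlt
      omega
    · rw [heq]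
    · have := rep_strict_len (k := n') (l := n) hy hgt
      omega
  have hy : 2 ≤ y := by
    by_contra hy
    apply hinf
    have : A = ∅ := by
      ext p
      simp only [hA, Set.mem_setOf_eq, Set.mem_empty_iff_false, iff_false]
      rintro ⟨⟨h1, -⟩, -⟩
      exact hy h1
    rw [this]
    exact Set.finite_empty
  -- a common gcd
  obtain ⟨g, hgy, hginf⟩ : ∃ g, g ∣ y ∧ (A ∩ {p | Nat.gcd p.1 y = g}).Infinite := by
    by_contra hcon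
    apply hinf
    have hsub : A ⊆ ⋃ g ∈ (y.divisors : Set ℕ), (A ∩ {p | Nat.gcd p.1 y = g}) := by
      intro p hp
      simp only [Set.mem_iUnion]
      refine ⟨Nat.gcd p.1 y, ?_, hp, rfl⟩
      rw [Finset.mem_coe, Nat.mem_divisors]
      exact ⟨Nat.gcd_dvd_right _ _, by omega⟩
    refine Set.Finite.subset (Set.Finite.biUnion (Finset.finite_toSet _) ?_) hsub
    intro g hg
    rw [Finset.mem_coe, Nat.mem_divisors] at hg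
    by_contra h
    exact hcon ⟨g, hg.1, h⟩
  have himg : (Prod.fst '' (A ∩ {p | Nat.gcd p.1 y = g})).Infinite :=
    Set.Infinite.image (hinj.mono Set.inter_subset_left) hginf
  obtain ⟨x₁, ⟨⟨x₁', n₁⟩, ⟨⟨s₁, d₁⟩, e₁⟩, hx₁⟩, hgt₁⟩ := himg.exists_gt (max (y + 1) ((6 * κ) ^ (20 * κ)))
  simp only at s₁ d₁ e₁ hx₁
  subst hx₁
  obtain ⟨K₀, hK₀⟩ : ∃ K₀, K₀ = 2 * (m + 1) * (m / (9 * κ ^ 2)) := ⟨_, rfl⟩
  obtain ⟨x₂, ⟨⟨x₂', n₂⟩, ⟨⟨s₂, d₂⟩, e₂⟩, hx₂⟩, hgt₂⟩ := himg.exists_gt (x₁' ^ K₀ + x₁')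
  simp only at s₂ d₂ e₂ hx₂
  subst hx₂
  have e₁' : Nat.gcd x₁' y = g := e₁
  have e₂' : Nat.gcd x₂' y = g := e₂
  rw [e₁'] at d₁
  rw [e₂'] at d₂
  have hyx : y + 1 < x₁' := lt_of_le_of_lt (le_max_left _ _) hgt₁
  have hmx : (6 * κ) ^ (20 * κ) < x₁' := lt_of_le_of_lt (le_max_right _ _) hgt₁
  have hx12 : x₁' < x₂' := lt_of_le_of_lt (Nat.le_add_left _ _) hgt₂
  have hpow : x₁' ^ K₀ ≤ x₂' := (Nat.le_add_right _ _).trans hgt₂.le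
  have h1x : 1 < x₁' := by omega
  have hm2 : 2 ≤ m := by
    have := s₁.2.2.1
    omega
  have hnn : n₁ < n₂ := (mono_iff s₁ s₂).1 hx12
  have hg1 : 1 ≤ g := Nat.pos_of_dvd_of_pos hgy (by omega)
  have f₁ : (g : ℤ) ^ n₁ ∣ ((y : ℤ) - 1) * (x₁' : ℤ) ^ m + x₁' - y := by
    have h1 := rel s₁
    have h2 : ((y : ℤ) - 1) * (x₁' : ℤ) ^ m + x₁' - y = (y : ℤ) ^ n₁ * ((x₁' : ℤ) - 1) := by
      rw [h1]
      ring
    rw [h2]
    exact Dvd.dvd.mul_right (pow_dvd_pow_of_dvd (by exact_mod_cast hgy) n₁) _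
  have f₂ : (g : ℤ) ^ n₂ ∣ ((y : ℤ) - 1) * (x₂' : ℤ) ^ m + x₂' - y := by
    have h1 := rel s₂
    have h2 : ((y : ℤ) - 1) * (x₂' : ℤ) ^ m + x₂' - y = (y : ℤ) ^ n₂ * ((x₂' : ℤ) - 1) := by
      rw [h1]
      ring
    rw [h2]
    exact Dvd.dvd.mul_right (pow_dvd_pow_of_dvd (by exact_mod_cast hgy) n₂) _
  have hgx₁ : (g : ℤ) ∣ x₁' := by
    have : g ∣ x₁' := by
      rw [← e₁']
      exact Nat.gcd_dvd_left _ _
    exact_mod_cast this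
  have hgx₂ : (g : ℤ) ∣ x₂' := by
    have : g ∣ x₂' := by
      rw [← e₂']
      exact Nat.gcd_dvd_left _ _
    exact_mod_cast this
  have hyg : ∀ n : ℕ, y ^ n ≤ g ^ (κ * n) := by
    intro n
    rw [pow_mul]
    exact Nat.pow_le_pow_left d₁ n
  refine no_anchor_q (κ := κ) (y := y) (m := m) (a := x₁') (x := x₂') (g := g) (μ := n₁) (ν := n₂)
    (K := Nat.log x₁' x₂') hκ hm hy ?_ hg1 hgy (by omega) hx12.le ?_ f₂ ?_ ?_ ?_ ?_ hmx.le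
  · calc (y + 1) ^ 10 ≤ x₁' ^ 10 := Nat.pow_le_pow_left hyx.le 10
      _ ≤ x₁' ^ 11 := Nat.pow_le_pow_right (by omega) (by norm_num)
  · exact root_unique_g hm2 hgx₁ hgx₂ f₁ ((pow_dvd_pow _ hnn.le).trans f₂)
  · exact (pow_le s₁).trans (hyg n₁)
  · calc x₁' ^ ((m - 1) * Nat.log x₁' x₂') = (x₁' ^ Nat.log x₁' x₂') ^ (m - 1) := by
          rw [← pow_mul, mul_comm]
      _ ≤ x₂' ^ (m - 1) := Nat.pow_le_pow_left (Nat.pow_log_le_self _ (by omega)) _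
      _ ≤ y ^ n₂ := pow_le s₂
      _ ≤ g ^ (κ * n₂) := hyg n₂
  · have h1 : K₀ ≤ Nat.log x₁' x₂' := Nat.le_log_of_pow_le h1x hpow
    rw [← hK₀]
    exact h1
  · exact Nat.lt_pow_succ_log_self h1x x₂'

end Pool.Agent.MP_88e4f4_nt.TQ
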