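import Mathlib

set_option autoImplicit false

namespace Pool.Agent.MP_88e4f4_nt.TQ

open Polynomial

/-- Taylor coefficients at `v = 1` of `v ^ (m (d - i) + j)`. -/
def lm (m d l i j : ℕ) : ℤ := ((m * (d - i) + j).choose l : ℤ)

/-- The (normalised) divided derivatives at the point `(z₀, p / q)`. -/
def evq (m d k : ℕ) (z₀ p q : ℤ) (h i j : ℕ) : ℤ :=
  ((m * (d - i) + j).choose h : ℤ) * (z₀ ^ i * (p - q) ^ (d - i) * p ^ j * q ^ (i + (k - j)))

/-- Vanishing of the functionals `lm` means high order of vanishing at `v = 1`. -/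
theorem dvd_of_lm {m d k L : ℕ} (c : ℕ → ℕ → ℚ)
    (h : ∀ l < L, ∑ i ∈ Finset.range (d + 1), ∑ j ∈ Finset.range (k + 1),
      c i j * (lm m d l i j : ℚ) = 0) :
    (X - C 1) ^ L ∣ ∑ i ∈ Finset.range (d + 1), X ^ (m * (d - i)) *
      ∑ j ∈ Finset.range (k + 1), C (c i j) * X ^ j := by
  obtain ⟨G, hG⟩ : ∃ G : ℚ[X], G = ∑ i ∈ Finset.range (d + 1), ∑ j ∈ Finset.range (k + 1),
    C (c i j) * (1 + X) ^ (m * (d - i) + j) := ⟨_, rfl⟩
  have hdvd : X ^ L ∣ G := by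
    rw [Polynomial.X_pow_dvd_iff]
    intro l hl
    rw [hG, ← h l hl]
    simp only [Polynomial.finsetSum_coeff, Polynomial.coeff_C_mul]
    refine Finset.sum_congr rfl fun i _ => Finset.sum_congr rfl fun j _ => ?_
    congr 1
    rw [coeff_one_add_X_pow]
    simp [lm]
  obtain ⟨Q, hQ⟩ := hdvd
  have hcomp : G.comp (X - C 1) = ∑ i ∈ Finset.range (d + 1), X ^ (m * (d - i)) *
      ∑ j ∈ Finset.range (k + 1), C (c i j) * X ^ j := by
    rw [hG, Polynomial.sum_comp]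
    refine Finset.sum_congr rfl fun i _ => ?_
    rw [Polynomial.sum_comp, Finset.mul_sum]
    refine Finset.sum_congr rfl fun j _ => ?_
    simp only [Polynomial.mul_comp, Polynomial.C_comp, Polynomial.pow_comp, Polynomial.X_comp,
      Polynomial.add_comp, Polynomial.one_comp]
    rw [pow_add]
    have e : (1 : ℚ[X]) + (X - C 1) = X := by rw [map_one]; ring
    rw [e]; ring
  rw [← hcomp, hQ]
  simp only [Polynomial.mul_comp, Polynomial.pow_comp, Polynomial.X_comp]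
  exact dvd_mul_right _ _

/-- Vanishing of the functionals `evq` means high order of vanishing at `v = p / q` of the
twisted polynomial. -/
theorem dvd_of_evq {m d k H : ℕ} (z₀ p q : ℤ) (hp : p ≠ 0) (hq : q ≠ 0) (hpq : p ≠ q)
    (c : ℕ → ℕ → ℚ)
    (h : ∀ h' < H, ∑ i ∈ Finset.range (d + 1), ∑ j ∈ Finset.range (k + 1),
      c i j * (evq m d k z₀ p q h' i j : ℚ) = 0) :
    (X - C ((p : ℚ) / q)) ^ H ∣ ∑ i ∈ Finset.range (d + 1),
      C (((z₀ : ℚ) * ((p : ℚ) / q) ^ m / ((p : ℚ) / q - 1)) ^ i) *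
        (X ^ (m * (d - i)) * ∑ j ∈ Finset.range (k + 1), C (c i j) * X ^ j) := by
  have hpQ : (p : ℚ) ≠ 0 := by exact_mod_cast hp
  have hqQ : (q : ℚ) ≠ 0 := by exact_mod_cast hq
  have hpqQ : (p : ℚ) - q ≠ 0 := by
    intro h0
    exact hpq (by exact_mod_cast sub_eq_zero.1 h0)
  obtain ⟨u, hu⟩ : ∃ u : ℚ, u = (p : ℚ) / q := ⟨_, rfl⟩
  have hu0 : u ≠ 0 := by rw [hu]; positivity
  have hu1 : u - 1 ≠ 0 := by
    rw [hu]
    intro h0
    apply hpqQ
    field_simp at h0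
    linarith
  rw [← hu]
  obtain ⟨G, hG⟩ : ∃ G : ℚ[X], G = ∑ i ∈ Finset.range (d + 1), ∑ j ∈ Finset.range (k + 1),
    C (c i j) * (C ((z₀ : ℚ) ^ i * ((p : ℚ) - q) ^ (d - i) * (p : ℚ) ^ j * (q : ℚ) ^ (i + (k - j))) *
      (1 + X) ^ (m * (d - i) + j)) := ⟨_, rfl⟩
  have hdvd : X ^ H ∣ G := by
    rw [Polynomial.X_pow_dvd_iff]
    intro l hl
    rw [hG, ← h l hl]
    simp only [Polynomial.finsetSum_coeff, Polynomial.coeff_C_mul]
    refine Finset.sum_congr rfl fun i _ => Finset.sum_congr rfl fun j _ => ?_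
    congr 1
    rw [coeff_one_add_X_pow]
    simp only [evq]
    push_cast
    ring
  obtain ⟨Q, hQ⟩ := hdvd
  obtain ⟨s, hs⟩ : ∃ s : ℚ[X], s = C (1 / u) * (X - C u) := ⟨_, rfl⟩
  have hs2 : (1 : ℚ[X]) + s = C (1 / u) * X := by
    have e2 : C (1 / u) * C u = (1 : ℚ[X]) := by
      rw [← C_mul, one_div_mul_cancel hu0, C_1]
    calc (1 : ℚ[X]) + s = C (1 / u) * C u + C (1 / u) * (X - C u) := by rw [e2, hs]
      _ = C (1 / u) * X := by ring
  have hcomp : G.comp s = C ((q : ℚ) ^ k * ((p : ℚ) - q) ^ d / u ^ (m * d)) *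
      ∑ i ∈ Finset.range (d + 1), C (((z₀ : ℚ) * u ^ m / (u - 1)) ^ i) *
        (X ^ (m * (d - i)) * ∑ j ∈ Finset.range (k + 1), C (c i j) * X ^ j) := by
    rw [hG, Polynomial.sum_comp, Finset.mul_sum]
    refine Finset.sum_congr rfl fun i hi => ?_
    rw [Polynomial.sum_comp, Finset.mul_sum, Finset.mul_sum, Finset.mul_sum]
    refine Finset.sum_congr rfl fun j hj => ?_
    simp only [Polynomial.mul_comp, Polynomial.C_comp, Polynomial.pow_comp, Polynomial.X_comp,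
      Polynomial.add_comp, Polynomial.one_comp]
    rw [hs2, mul_pow, ← C_pow]
    have hi' : i ≤ d := by have := Finset.mem_range.1 hi; omega
    have hj' : j ≤ k := by have := Finset.mem_range.1 hj; omega
    have hpu : (p : ℚ) = u * q := by rw [hu]; field_simp
    have hpq' : (p : ℚ) - q = (u - 1) * q := by rw [hpu]; ring
    have key : (z₀ : ℚ) ^ i * ((p : ℚ) - q) ^ (d - i) * (p : ℚ) ^ j * (q : ℚ) ^ (i + (k - j)) *
        (1 / u) ^ (m * (d - i) + j) =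
        (q : ℚ) ^ k * ((p : ℚ) - q) ^ d / u ^ (m * d) * ((z₀ : ℚ) * u ^ m / (u - 1)) ^ i := by
      obtain ⟨d', rfl⟩ : ∃ d', d = i + d' := ⟨d - i, by omega⟩
      obtain ⟨k', rfl⟩ : ∃ k', k = j + k' := ⟨k - j, by omega⟩
      rw [hpq', hpu]
      simp only [Nat.add_sub_cancel_left, mul_pow, div_pow, one_pow, pow_add, mul_add, pow_mul]
      have hum : u ^ m ≠ 0 := pow_ne_zero _ hu0
      field_simp
    have key' : C ((z₀ : ℚ) ^ i * ((p : ℚ) - q) ^ (d - i) * (p : ℚ) ^ j *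
        (q : ℚ) ^ (i + (k - j))) * C ((1 / u) ^ (m * (d - i) + j)) =
        C ((q : ℚ) ^ k * ((p : ℚ) - q) ^ d / u ^ (m * d)) *
          C (((z₀ : ℚ) * u ^ m / (u - 1)) ^ i) := by
      rw [← C_mul, ← C_mul, key]
    calc C (c i j) * (C ((z₀ : ℚ) ^ i * ((p : ℚ) - q) ^ (d - i) * (p : ℚ) ^ j *
          (q : ℚ) ^ (i + (k - j))) *
          (C ((1 / u) ^ (m * (d - i) + j)) * X ^ (m * (d - i) + j)))
        = (C ((z₀ : ℚ) ^ i * ((p : ℚ) - q) ^ (d - i) * (p : ℚ) ^ j *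
            (q : ℚ) ^ (i + (k - j))) * C ((1 / u) ^ (m * (d - i) + j))) *
            (C (c i j) * X ^ (m * (d - i) + j)) := by ring
      _ = _ := by rw [key', pow_add]; ring
  have hdv : (X - C u) ^ H ∣ G.comp s := by
    rw [hQ]
    simp only [Polynomial.mul_comp, Polynomial.pow_comp, Polynomial.X_comp]
    rw [hs, mul_pow]
    exact Dvd.dvd.mul_right (dvd_mul_left _ _) _
  rw [hcomp] at hdv
  have hconst : (q : ℚ) ^ k * ((p : ℚ) - q) ^ d / u ^ (m * d) ≠ 0 :=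
    div_ne_zero (mul_ne_zero (pow_ne_zero _ hqQ) (pow_ne_zero _ hpqQ)) (pow_ne_zero _ hu0)
  have hunit : IsUnit (C ((q : ℚ) ^ k * ((p : ℚ) - q) ^ d / u ^ (m * d)) : ℚ[X]) :=
    Polynomial.isUnit_C.2 (isUnit_iff_ne_zero.2 hconst)
  exact (hunit.dvd_mul_left).1 hdv

end Pool.Agent.MP_88e4f4_nt.TQ
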