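import Pool.Agent.MP_88e4f4_nt.TS.C2
import Pool.Agent.MP_88e4f4_nt.TQ.Y2

set_option autoImplicit false

namespace Pool.Agent.MP_88e4f4_nt.TQ

open Pool.Agent.MP_88e4f4_nt.TS

/-- The identity behind the congruence. -/
theorem y4_identity (M h N : ℕ) (hMN : M ≤ N) (p q : ℤ) :
    (M.choose h : ℤ) * p ^ M * q ^ (N - M) =
      ∑ l ∈ Finset.range (N + 1),
        ((l.choose h : ℤ) * p ^ h * (p - q) ^ (l - h) * q ^ (N - l)) * (M.choose l : ℤ) := by
  rcases Nat.lt_or_ge M h with hMh | hMh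
  · rw [Nat.choose_eq_zero_of_lt hMh, Nat.cast_zero, zero_mul, zero_mul]
    symm
    refine Finset.sum_eq_zero fun l _ => ?_
    rcases Nat.lt_or_ge l h with hl | hl
    · rw [Nat.choose_eq_zero_of_lt hl, Nat.cast_zero]
      ring
    · rw [Nat.choose_eq_zero_of_lt (lt_of_lt_of_le hMh hl), Nat.cast_zero, mul_zero]
  · obtain ⟨e, rfl⟩ := Nat.exists_eq_add_of_le hMN
    have h1 := taylor_expand M h (M + e + 1) (by omega) p q
    have h2 : (M.choose h : ℤ) * p ^ M * q ^ (M + e - M) =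
        p ^ h * q ^ e * ((M.choose h : ℤ) * p ^ (M - h)) := by
      have e1 : p ^ M = p ^ h * p ^ (M - h) := by rw [← pow_add, Nat.add_sub_cancel' hMh]
      rw [e1, Nat.add_sub_cancel_left]
      ring
    rw [h2, h1, Finset.mul_sum]
    refine Finset.sum_congr rfl fun l _ => ?_
    rcases Nat.lt_or_ge M l with hl | hl
    · rw [Nat.choose_eq_zero_of_lt hl, Nat.cast_zero]
      ring
    · obtain ⟨f, rfl⟩ := Nat.exists_eq_add_of_le hl
      have e2 : l + f + e - l = f + e := by omega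
      have e3 : l + f - l = f := by omega
      rw [e2, e3, pow_add q f e]
      ring

/-- The congruence. -/
theorem congr_evq {m d k L H w h i j : ℕ} (hm : 1 ≤ m) (hi : i ≤ d) (hj : j ≤ k) (hh : h < H)
    (g z₀ p q : ℤ) (h1 : g ^ w ∣ z₀ * p ^ m - (p - q) * q ^ (m - 1))
    (h2 : g ^ w ∣ (p - q) ^ (d + L + 1 - H)) :
    ∃ r : ℤ, p ^ (m * d) * q ^ H * evq m d k z₀ p q h i j =
      ∑ l ∈ Finset.range L, ((l.choose h : ℤ) * p ^ h * (p - q) ^ (d + l - h) *
        q ^ (m * d + k + H - l)) * lm m d l i j + g ^ w * r := by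
  obtain ⟨M, hM⟩ : ∃ M, M = m * (d - i) + j := ⟨_, rfl⟩
  obtain ⟨N, hN⟩ : ∃ N, N = m * d + k + H := ⟨_, rfl⟩
  have hdi : m * (d - i) + m * i = m * d := by
    rw [← Nat.mul_add, Nat.sub_add_cancel hi]
  have hmi : (m - 1) * i + i = m * i := by
    obtain ⟨m', rfl⟩ := Nat.exists_eq_add_of_le hm
    rw [Nat.add_sub_cancel_left]
    ring
  have hMN : M ≤ N := by
    rw [hM, hN]
    omega
  have h3 := y4_identity M h N hMN p q
  have h4 : g ^ w ∣ (z₀ * p ^ m) ^ i - ((p - q) * q ^ (m - 1)) ^ i :=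
    h1.trans (sub_dvd_pow_sub_pow _ _ i)
  obtain ⟨s, hs⟩ := h4
  -- the identity multiplied by `(p - q) ^ d`
  have h5 : (M.choose h : ℤ) * p ^ M * q ^ (N - M) * (p - q) ^ d =
      ∑ l ∈ Finset.range (N + 1),
        ((l.choose h : ℤ) * p ^ h * (p - q) ^ (d + l - h) * q ^ (N - l)) * (M.choose l : ℤ) := by
    rw [h3, Finset.sum_mul]
    refine Finset.sum_congr rfl fun l _ => ?_
    rcases Nat.lt_or_ge l h with hl | hl
    · rw [Nat.choose_eq_zero_of_lt hl, Nat.cast_zero]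
      ring
    · have e1 : d + l - h = d + (l - h) := by omega
      rw [e1, pow_add]
      ring
  -- cut the sum at `L`
  have h6 : ∃ t : ℤ, ∑ l ∈ Finset.range (N + 1),
        ((l.choose h : ℤ) * p ^ h * (p - q) ^ (d + l - h) * q ^ (N - l)) * (M.choose l : ℤ) =
      ∑ l ∈ Finset.range L,
        ((l.choose h : ℤ) * p ^ h * (p - q) ^ (d + l - h) * q ^ (N - l)) * (M.choose l : ℤ) +
        g ^ w * t := by
    have hbig : ∀ l, L ≤ l → g ^ w ∣
        ((l.choose h : ℤ) * p ^ h * (p - q) ^ (d + l - h) * q ^ (N - l)) * (M.choose l : ℤ) := by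
      intro l hl
      apply Dvd.dvd.mul_right
      apply Dvd.dvd.mul_right
      apply Dvd.dvd.mul_left
      exact h2.trans (pow_dvd_pow _ (by omega))
    rcases Nat.lt_or_ge N L with hNL | hNL
    · -- the sum over `range L` has additional zero terms
      obtain ⟨E, rfl⟩ := Nat.exists_eq_add_of_le (Nat.succ_le_of_lt hNL)
      refine ⟨0, ?_⟩
      rw [mul_zero, add_zero]
      have e1 : N.succ + E = (N + 1) + E := rfl
      rw [e1, Finset.sum_range_add _ (N + 1) E]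
      symm
      rw [add_eq_left]
      refine Finset.sum_eq_zero fun l _ => ?_
      rw [Nat.choose_eq_zero_of_lt (show M < N + 1 + l by omega), Nat.cast_zero, mul_zero]
    · obtain ⟨E, hE⟩ := Nat.exists_eq_add_of_le hNL
      have e1 : N + 1 = L + (E + 1) := by omega
      rw [e1, Finset.sum_range_add]
      obtain ⟨t, ht⟩ : g ^ w ∣ ∑ x ∈ Finset.range (E + 1),
        (((L + x).choose h : ℤ) * p ^ h * (p - q) ^ (d + (L + x) - h) * q ^ (N - (L + x))) *
          (M.choose (L + x) : ℤ) := Finset.dvd_sum fun x _ => hbig _ (Nat.le_add_right _ _)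
      exact ⟨t, by rw [ht]⟩
  obtain ⟨t, ht⟩ := h6
  have e2 : p ^ (m * d) = (p ^ m) ^ i * p ^ (m * (d - i)) := by
    rw [← pow_mul, ← pow_add, ← hdi]
    congr 1
    ring
  have e3 : (z₀ * p ^ m) ^ i = (p - q) ^ i * q ^ ((m - 1) * i) + g ^ w * s := by
    rw [pow_mul, ← mul_pow, ← hs]
    ring
  have e4 : p ^ (m * d) * q ^ H * evq m d k z₀ p q h i j = (z₀ * p ^ m) ^ i *
      ((M.choose h : ℤ) * p ^ M * (p - q) ^ (d - i) * q ^ (i + (k - j) + H)) := by
    unfold evq
    rw [e2, mul_pow, ← hM, pow_add q (i + (k - j)) H]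
    have e5 : p ^ M = p ^ (m * (d - i)) * p ^ j := by rw [hM, pow_add]
    rw [e5]
    ring
  have e6 : (p - q) ^ i * q ^ ((m - 1) * i) *
      ((M.choose h : ℤ) * p ^ M * (p - q) ^ (d - i) * q ^ (i + (k - j) + H)) =
      (M.choose h : ℤ) * p ^ M * q ^ (N - M) * (p - q) ^ d := by
    have e7 : (p - q) ^ d = (p - q) ^ i * (p - q) ^ (d - i) := by
      rw [← pow_add, Nat.add_sub_cancel' hi]
    have e8 : N - M = (m - 1) * i + (i + (k - j) + H) := by
      rw [hN, hM]
      omega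
    rw [e7, e8, pow_add q ((m - 1) * i)]
    ring
  refine ⟨t + s * ((M.choose h : ℤ) * p ^ M * (p - q) ^ (d - i) * q ^ (i + (k - j) + H)), ?_⟩
  have e9 : ∑ l ∈ Finset.range L, ((l.choose h : ℤ) * p ^ h * (p - q) ^ (d + l - h) *
        q ^ (m * d + k + H - l)) * lm m d l i j =
      ∑ l ∈ Finset.range L,
        ((l.choose h : ℤ) * p ^ h * (p - q) ^ (d + l - h) * q ^ (N - l)) * (M.choose l : ℤ) := by
    refine Finset.sum_congr rfl fun l _ => ?_
    rw [lm, hM, hN]
  rw [e9, e4, e3, add_mul, e6, h5, ht]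
  ring

end Pool.Agent.MP_88e4f4_nt.TQ
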