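import Pool.Agent.MP_88e4f4_nt.TQ.Y2

set_option autoImplicit false

namespace Pool.Agent.MP_88e4f4_nt.TQ

/-- Size of the binomial coefficients. -/
theorem y5_choose {m d k i j : ℕ} (hj : j ≤ k) (l : ℕ) :
    (((m * (d - i) + j).choose l : ℕ) : ℤ) ≤ 2 ^ (m * d + k) := by
  have h2 : (2 : ℤ) ^ (m * (d - i) + j) ≤ 2 ^ (m * d + k) := by
    refine pow_le_pow_right₀ (by norm_num) ?_
    have : m * (d - i) ≤ m * d := Nat.mul_le_mul_left m (Nat.sub_le d i)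
    omega
  have h1 : (((m * (d - i) + j).choose l : ℕ) : ℤ) ≤ ((2 ^ (m * (d - i) + j) : ℕ) : ℤ) := by
    exact_mod_cast Nat.choose_le_two_pow _ _
  push_cast at h1
  exact h1.trans h2

/-- Size of `lm`. -/
theorem lm_le {m d k l i j : ℕ} (hj : j ≤ k) : |lm m d l i j| ≤ 2 ^ (m * d + k) := by
  unfold lm
  rw [abs_of_nonneg (Int.natCast_nonneg _)]
  exact y5_choose hj l

/-- Size of `evq`. -/
theorem evq_le {m d k h i j : ℕ} (hi : i ≤ d) (hj : j ≤ k) (z₀ p q Xb : ℤ)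
    (hZ : |z₀| * q ≤ Xb) (hpX : p ≤ Xb) (hq : 1 ≤ q) (hqp : q ≤ p) :
    |evq m d k z₀ p q h i j| ≤ 2 ^ (m * d + k) * Xb ^ d * p ^ k := by
  have hp0 : 0 ≤ p := by omega
  have hq0 : 0 ≤ q := by omega
  have hX0 : 0 ≤ Xb := by omega
  have h2 : |z₀ ^ i| * q ^ i ≤ Xb ^ i := by
    rw [abs_pow, ← mul_pow]
    exact pow_le_pow_left₀ (mul_nonneg (abs_nonneg _) hq0) hZ i
  have h3 : p ^ j * q ^ (k - j) ≤ p ^ k := by
    calc p ^ j * q ^ (k - j) ≤ p ^ j * p ^ (k - j) :=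
          mul_le_mul_of_nonneg_left (pow_le_pow_left₀ hq0 hqp _) (pow_nonneg hp0 _)
      _ = p ^ k := by rw [← pow_add, Nat.add_sub_cancel' hj]
  have h4 : (p - q) ^ (d - i) ≤ Xb ^ (d - i) := pow_le_pow_left₀ (by omega) (by omega) _
  have h5 : Xb ^ i * Xb ^ (d - i) = Xb ^ d := by rw [← pow_add, Nat.add_sub_cancel' hi]
  have h6 : |evq m d k z₀ p q h i j| = (((m * (d - i) + j).choose h : ℕ) : ℤ) *
      ((|z₀ ^ i| * q ^ i) * (p - q) ^ (d - i) * (p ^ j * q ^ (k - j))) := by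
    unfold evq
    rw [abs_mul, abs_of_nonneg (Int.natCast_nonneg _), abs_mul, abs_mul, abs_mul,
      abs_of_nonneg (pow_nonneg (show (0 : ℤ) ≤ p - q by omega) _),
      abs_of_nonneg (pow_nonneg hp0 _), abs_of_nonneg (pow_nonneg hq0 _), pow_add q i (k - j)]
    ring
  rw [h6]
  have hc : (0 : ℤ) ≤ |z₀ ^ i| * q ^ i := mul_nonneg (abs_nonneg _) (pow_nonneg hq0 _)
  have hd : (0 : ℤ) ≤ (p - q) ^ (d - i) := pow_nonneg (by omega) _
  have he : (0 : ℤ) ≤ p ^ j * q ^ (k - j) := mul_nonneg (pow_nonneg hp0 _) (pow_nonneg hq0 _)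
  calc _ ≤ 2 ^ (m * d + k) * ((Xb ^ i * Xb ^ (d - i)) * p ^ k) := by
        refine mul_le_mul (y5_choose hj h) ?_ (mul_nonneg (mul_nonneg hc hd) he) (by positivity)
        exact mul_le_mul (mul_le_mul h2 h4 hd (pow_nonneg hX0 _)) h3 he
          (mul_nonneg (pow_nonneg hX0 _) (pow_nonneg hX0 _))
    _ = 2 ^ (m * d + k) * Xb ^ d * p ^ k := by rw [h5]; ring

end Pool.Agent.MP_88e4f4_nt.TQ
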