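import Pool.Agent.MP_88e4f4_nt.TS.D4
import Pool.Agent.MP_88e4f4_nt.TQ.Y3
import Pool.Agent.MP_88e4f4_nt.TQ.Y4
import Pool.Agent.MP_88e4f4_nt.TQ.Y5

set_option autoImplicit false

namespace Pool.Agent.MP_88e4f4_nt.TQ

open Polynomial Pool.Agent.MP_88e4f4_nt.TS

theorem y6_sum {M : Type*} [AddCommMonoid M] (D k : ℕ) (g : ℕ → ℕ → M) :
    ∑ i ∈ Finset.range D, ∑ j ∈ Finset.range k, g i j = ∑ p : Fin D × Fin k, g p.1 p.2 := by
  rw [Fintype.sum_prod_type, Finset.sum_range]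
  refine Finset.sum_congr rfl fun i _ => ?_
  rw [Finset.sum_range]

/-- The main inequality on the curve. -/
theorem curveq_ineq {m d k L H w : ℕ} (hk : k < m) (g z₀ p q Xb : ℤ) (hg : 1 ≤ g)
    (hz : z₀ ≠ 0) (hZ : |z₀| * q ≤ Xb) (hpX : p ≤ Xb) (hq : 1 ≤ q) (hqp : q < p)
    (hcp : IsCoprime p g) (hcq : IsCoprime q g)
    (h1 : g ^ w ∣ z₀ * p ^ m - (p - q) * q ^ (m - 1))
    (h2 : g ^ w ∣ (p - q) ^ (d + L + 1 - H)) (hLH : (d + 1) * k + 2 * d < L + H) :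
    ∃ s t : ℕ, s + t = (d + 1) * (k + 1) ∧ s ≤ L ∧ t ≤ H ∧
      g ^ (w * t) ≤ (((d + 1) * (k + 1)).factorial : ℤ) * (2 ^ (m * d + k)) ^ s *
        (2 ^ (m * d + k) * Xb ^ d * p ^ k) ^ t := by
  classical
  have hm : 1 ≤ m := by omega
  have hrow : ∀ (h : Fin H) (i : Fin (d + 1) × Fin (k + 1)), ∃ r : ℤ,
      p ^ (m * d) * q ^ H * evq m d k z₀ p q h i.1 i.2 =
        ∑ l ∈ Finset.range L, ((l.choose h : ℤ) * p ^ (h : ℕ) * (p - q) ^ (d + l - h) *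
          q ^ (m * d + k + H - l)) * lm m d l i.1 i.2 + g ^ w * r := fun h i =>
    congr_evq hm (Nat.lt_succ_iff.1 i.1.2) (Nat.lt_succ_iff.1 i.2.2) h.2 g z₀ p q h1 h2
  choose r hr using hrow
  have hcore := core_ineq (I := Fin (d + 1) × Fin (k + 1)) (A := Fin L) (L := Fin H)
    (fun l i => lm m d l i.1 i.2) (fun h i => evq m d k z₀ p q h i.1 i.2) ?_ g
    (p ^ (m * d) * q ^ H) hg ?_ w
    (fun h l => ((l : ℕ).choose h : ℤ) * p ^ (h : ℕ) * (p - q) ^ (d + (l : ℕ) - h) *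
      q ^ (m * d + k + H - l)) r ?_ (2 ^ (m * d + k)) (2 ^ (m * d + k) * Xb ^ d * p ^ k) ?_ ?_
  · obtain ⟨s, t, hst, hs, ht, hfin⟩ := hcore
    rw [Fintype.card_prod, Fintype.card_fin, Fintype.card_fin] at hst hfin
    rw [Fintype.card_fin] at hs ht
    exact ⟨s, t, hst, hs, ht, hfin⟩
  · -- the kernel
    intro c hc1 hc2
    obtain ⟨c', hc'⟩ : ∃ c' : ℕ → ℕ → ℚ, ∀ i j, c' i j =
        if h : i < d + 1 ∧ j < k + 1 then c (⟨i, h.1⟩, ⟨j, h.2⟩) else 0 := ⟨_, fun _ _ => rfl⟩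
    have hcc' : ∀ i : Fin (d + 1) × Fin (k + 1), c' i.1 i.2 = c i := by
      intro i
      rw [hc', dif_pos ⟨i.1.2, i.2.2⟩]
    have hzero := curveq_kernel (m := m) (d := d) (k := k) (L := L) (H := H) hk z₀ p q hz
      (by omega) (by omega) (by omega) hLH c' ?_ ?_
    · funext i
      rw [← hcc' i]
      exact hzero _ i.1.2 _ i.2.2
    · intro l hl
      rw [y6_sum (d + 1) (k + 1) (fun i j => c' i j * (lm m d l i j : ℚ))]
      rw [← hc1 ⟨l, hl⟩]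
      refine Finset.sum_congr rfl fun i _ => ?_
      rw [hcc' i]
    · intro h hh
      rw [y6_sum (d + 1) (k + 1) (fun i j => c' i j * (evq m d k z₀ p q h i j : ℚ))]
      rw [← hc2 ⟨h, hh⟩]
      refine Finset.sum_congr rfl fun i _ => ?_
      rw [hcc' i]
  · exact (hcp.pow_left).mul_left (hcq.pow_left)
  · intro h i
    rw [hr h i, Finset.sum_range]
  · intro l i
    exact lm_le (Nat.lt_succ_iff.1 i.2.2)
  · intro h i
    exact evq_le (Nat.lt_succ_iff.1 i.1.2) (Nat.lt_succ_iff.1 i.2.2) z₀ p q Xb hZ hpX hq hqp.le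

end Pool.Agent.MP_88e4f4_nt.TQ
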