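import Mathlib

set_option autoImplicit false

namespace Pool.Agent.MP_88e4f4_nt.TQ

theorem y7_real {x M s : ℝ} (hx : 1 ≤ x) (hM : 400 * x ^ 3 ≤ M) (hs : 20 * x ≤ s)
    (hsM : 9 * x ^ 2 * s ^ 2 ≤ 2 * (M + 1) * M) :
    (M + 1) * (s + 2) ^ 2 + 50 * x * (s + 1) * (M + 3) + 50 < 50 * s ^ 2 * (M - 1 - 2 * x * (s + 1)) ∧
      0 < M - 1 - 2 * x * (s + 1) := by
  have hx0 : 0 < x := by linarith
  have h13 : x ≤ x ^ 3 := by
    have := pow_le_pow_right₀ hx (show 1 ≤ 3 by norm_num)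
    rwa [pow_one] at this
  have h23 : x ^ 2 ≤ x ^ 3 := pow_le_pow_right₀ hx (by norm_num)
  have hM0 : 400 ≤ M := by linarith
  have hs0 : 20 ≤ s := by linarith
  have hxM : 400 * x ≤ M := by linarith
  have hP : 0 < M * s ^ 2 := by positivity
  have hs2 : 400 ≤ s ^ 2 := by nlinarith
  -- the first two terms
  have t1 : (M + 1) * (s + 2) ^ 2 ≤ 1.2131 * (M * s ^ 2) := by
    have e1 : (s + 2) ^ 2 ≤ 1.21 * s ^ 2 := by nlinarith
    have e2 : M + 1 ≤ 1.0025 * M := by linarith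
    calc (M + 1) * (s + 2) ^ 2 ≤ (1.0025 * M) * (1.21 * s ^ 2) :=
          mul_le_mul e2 e1 (by positivity) (by positivity)
      _ ≤ 1.2131 * (M * s ^ 2) := by nlinarith
  have t2 : (s + 1) * (M + 3) ≤ 1.058 * (s * M) := by
    have e1 : s + 1 ≤ 1.05 * s := by linarith
    have e2 : M + 3 ≤ 1.0075 * M := by linarith
    calc (s + 1) * (M + 3) ≤ (1.05 * s) * (1.0075 * M) :=
          mul_le_mul e1 e2 (by positivity) (by positivity)
      _ ≤ 1.058 * (s * M) := by nlinarith [mul_pos (show 0 < s by linarith) (show 0 < M by linarith)]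
  have t3 : (50 : ℝ) ≤ 0.001 * (M * s ^ 2) := by
    have : 400 * 400 ≤ M * s ^ 2 := mul_le_mul hM0 hs2 (by norm_num) (by linarith)
    linarith
  rcases le_or_gt (100 * x) s with h | h
  · have hxs : x * s ≤ 0.4725 * M := by
      have e1 : (x * s) ^ 2 ≤ (0.4725 * M) ^ 2 := by nlinarith
      exact le_of_sq_le_sq e1 (by positivity)
    have e2 : 0.0475 * M ≤ M - 1 - 2 * x * (s + 1) := by nlinarith
    have e3 : 50 * s ^ 2 * (0.0475 * M) ≤ 50 * s ^ 2 * (M - 1 - 2 * x * (s + 1)) :=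
      mul_le_mul_of_nonneg_left e2 (by positivity)
    have e4 : 50 * x * (s + 1) * (M + 3) ≤ 0.53 * (M * s ^ 2) := by
      calc 50 * x * (s + 1) * (M + 3) = 50 * x * ((s + 1) * (M + 3)) := by ring
        _ ≤ 50 * (s / 100) * (1.058 * (s * M)) :=
          mul_le_mul (by linarith) t2 (by positivity) (by positivity)
        _ ≤ 0.53 * (M * s ^ 2) := by nlinarith
    exact ⟨by nlinarith, by linarith⟩
  · have hxs : x * s ≤ 0.25 * M := by
      have : x * s ≤ x * (100 * x) := mul_le_mul_of_nonneg_left h.le hx0.le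
      nlinarith
    have e2 : 0.49 * M ≤ M - 1 - 2 * x * (s + 1) := by nlinarith
    have e3 : 50 * s ^ 2 * (0.49 * M) ≤ 50 * s ^ 2 * (M - 1 - 2 * x * (s + 1)) :=
      mul_le_mul_of_nonneg_left e2 (by positivity)
    have e4 : 50 * x * (s + 1) * (M + 3) ≤ 2.65 * (M * s ^ 2) := by
      calc 50 * x * (s + 1) * (M + 3) = 50 * x * ((s + 1) * (M + 3)) := by ring
        _ ≤ 50 * (s / 20) * (1.058 * (s * M)) :=
          mul_le_mul (by linarith) t2 (by positivity) (by positivity)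
        _ ≤ 2.65 * (M * s ^ 2) := by nlinarith
    exact ⟨by nlinarith, by linarith⟩

theorem y7_sq {m : ℕ} (hm : 4 ≤ m) : m ^ 2 ≤ 2 ^ m := by
  induction m, hm using Nat.le_induction with
  | base => norm_num
  | succ n hn ih =>
    rw [pow_succ 2 n]
    nlinarith

/-- Numerical facts for the curve part: `d = Nat.sqrt K + 1`, `t₀ = ((d + 1) ^ 2 - K + 1) / 2`,
`L = (d + 1) ^ 2 - t₀`, `H = t₀ + d`. -/
theorem params_q {κ m K d t₀ L H : ℕ} (hκ : 1 ≤ κ) (hm : 400 * κ ^ 3 ≤ m)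
    (hd : d = Nat.sqrt K + 1) (ht : t₀ = ((d + 1) * (d + 1) - K + 1) / 2)
    (hL : L = (d + 1) * (d + 1) - t₀) (hH : H = t₀ + d)
    (hK1 : m + 1 ≤ κ * (K + 1)) (hK2 : K < 2 * (m + 1) * (m / (9 * κ ^ 2))) :
    d < m ∧ 1 ≤ t₀ ∧ L + t₀ = (d + 1) * (d + 1) ∧ (d + 1) * d + 2 * d < L + H ∧
      K ≤ d + L + 1 - H ∧ (d + 1) * (d + 1) ≤ 2 ^ m ∧
      κ * ((d + 1) * (d + 1)) * (m * (d + 1) + d) +
        50 * κ * t₀ * (κ * (d * (K + m + 2) + d * (K + 1))) < 50 * κ * t₀ * ((m - 1) * K - 1) := by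
  obtain ⟨s, hs⟩ : ∃ s, s = Nat.sqrt K := ⟨_, rfl⟩
  rw [← hs] at hd
  have hs1 : s * s ≤ K := by rw [hs]; exact Nat.sqrt_le K
  have hs2 : K < (s + 1) * (s + 1) := by rw [hs]; exact Nat.lt_succ_sqrt K
  clear hs
  have hκ2 : 0 < 9 * κ ^ 2 := by positivity
  have hm400 : 400 ≤ m := by
    have : 1 ≤ κ ^ 3 := Nat.one_le_pow _ _ hκ
    omega
  have hsM : 9 * κ ^ 2 * (s * s) ≤ 2 * (m + 1) * m := by
    have g1 : m / (9 * κ ^ 2) * (9 * κ ^ 2) ≤ m := Nat.div_mul_le_self _ _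
    calc 9 * κ ^ 2 * (s * s) ≤ 9 * κ ^ 2 * K := Nat.mul_le_mul_left _ hs1
      _ ≤ 9 * κ ^ 2 * (2 * (m + 1) * (m / (9 * κ ^ 2))) := Nat.mul_le_mul_left _ hK2.le
      _ = 2 * (m + 1) * (m / (9 * κ ^ 2) * (9 * κ ^ 2)) := by ring
      _ ≤ 2 * (m + 1) * m := Nat.mul_le_mul_left _ g1
  have hdm : s + 2 ≤ m := by
    by_contra hlt
    push Not at hlt
    have g1 : m - 1 ≤ s := by omega
    obtain ⟨m', rfl⟩ : ∃ m', m = m' + 1 := ⟨m - 1, by omega⟩
    rw [Nat.add_sub_cancel] at g1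
    have g2 : m' * m' ≤ s * s := Nat.mul_le_mul g1 g1
    have g3 : 1 * (s * s) ≤ κ ^ 2 * (s * s) := Nat.mul_le_mul_right _ (Nat.one_le_pow _ _ hκ)
    nlinarith
  have hs20 : 20 * κ ≤ s := by
    by_contra hlt
    push Not at hlt
    have g1 : s + 1 ≤ 20 * κ := by omega
    have g2 : (s + 1) * (s + 1) ≤ (20 * κ) * (20 * κ) := Nat.mul_le_mul g1 g1
    have g3 : κ * (K + 1) ≤ κ * ((20 * κ) * (20 * κ)) := Nat.mul_le_mul_left _ (by omega)
    have g4 : κ * ((20 * κ) * (20 * κ)) = 400 * κ ^ 3 := by ring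
    omega
  have e1 : (d + 1) * (d + 1) = s * s + 4 * s + 4 := by rw [hd]; ring
  have e2 : (d + 1) * d = s * s + 3 * s + 2 := by rw [hd]; ring
  have e3 : (s + 1) * (s + 1) = s * s + 2 * s + 1 := by ring
  rw [e1] at ht hL ⊢
  rw [e2]
  rw [e3] at hs2
  generalize hP : s * s = P at *
  have ht2 : s + 2 ≤ t₀ := by omega
  refine ⟨by omega, by omega, by omega, by omega, by omega, ?_, ?_⟩
  · have g1 : (s + 2) * (s + 2) ≤ m * m := Nat.mul_le_mul hdm hdm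
    have g2 := y7_sq (show 4 ≤ m by omega)
    have g3 : (s + 2) * (s + 2) = P + 4 * s + 4 := by rw [← hP]; ring
    rw [g3, ← pow_two] at g1
    exact g1.trans g2
  · have hK0 : 1 ≤ K := by
      have g1 : 20 * 20 ≤ s * s := Nat.mul_le_mul (by omega) (by omega)
      omega
    have hmK : 1 ≤ (m - 1) * K := Nat.mul_pos (by omega) hK0
    obtain ⟨hr1, hr2⟩ := y7_real (x := (κ : ℝ)) (M := (m : ℝ)) (s := (s : ℝ))
      (by exact_mod_cast hκ) (by exact_mod_cast hm) (by exact_mod_cast hs20)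
      (by rw [← hP] at hsM; rw [pow_two (s : ℝ)]; exact_mod_cast hsM)
    rw [← Nat.cast_lt (α := ℝ)]
    push_cast [Nat.cast_sub hmK, Nat.cast_sub (show 1 ≤ m by omega)]
    have hPr : (P : ℝ) = (s : ℝ) * s := by rw [← hP]; push_cast; ring
    have hPK : (s : ℝ) * s ≤ (K : ℝ) := by rw [← hPr]; exact_mod_cast hs1
    have hdr : (d : ℝ) = (s : ℝ) + 1 := by rw [hd]; push_cast; ring
    have ht2r : (s : ℝ) + 2 ≤ (t₀ : ℝ) := by exact_mod_cast ht2
    have hκr : (1 : ℝ) ≤ κ := by exact_mod_cast hκ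
    rw [hPr, hdr]
    have hs0 : (0 : ℝ) ≤ s := Nat.cast_nonneg _
    have hm0 : (0 : ℝ) ≤ m := Nat.cast_nonneg _
    have hKB : 50 * (s : ℝ) ^ 2 * (m - 1 - 2 * κ * (s + 1)) ≤
        50 * (K : ℝ) * (m - 1 - 2 * κ * (s + 1)) := by
      have g1 : 50 * (s : ℝ) ^ 2 ≤ 50 * (K : ℝ) := by nlinarith
      exact mul_le_mul_of_nonneg_right g1 hr2.le
    have hclaim : ((m : ℝ) + 1) * (s + 2) ^ 2 + 50 * κ * ((s + 1) * (2 * K + m + 3)) <
        50 * ((m - 1) * K - 1) := by nlinarith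
    have ht0 : (0 : ℝ) < t₀ := by linarith
    have hI : ((s : ℝ) * s + 4 * s + 4) * (m * (s + 1 + 1) + (s + 1)) ≤
        t₀ * (((m : ℝ) + 1) * (s + 2) ^ 2) := by
      have g1 : (m : ℝ) * (s + 1 + 1) + (s + 1) ≤ (m + 1) * t₀ := by nlinarith
      have g2 : (s : ℝ) * s + 4 * s + 4 = (s + 2) ^ 2 := by ring
      rw [g2]
      calc ((s : ℝ) + 2) ^ 2 * (m * (s + 1 + 1) + (s + 1)) ≤ (s + 2) ^ 2 * ((m + 1) * t₀) :=
            mul_le_mul_of_nonneg_left g1 (by positivity)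
        _ = t₀ * (((m : ℝ) + 1) * (s + 2) ^ 2) := by ring
    calc (κ : ℝ) * (s * s + 4 * s + 4) * (m * (s + 1 + 1) + (s + 1)) +
          50 * κ * t₀ * (κ * ((s + 1) * (K + m + 2) + (s + 1) * (K + 1)))
        = κ * (((s : ℝ) * s + 4 * s + 4) * (m * (s + 1 + 1) + (s + 1))) +
          κ * t₀ * (50 * κ * ((s + 1) * (2 * K + m + 3))) := by ring
      _ ≤ κ * (t₀ * (((m : ℝ) + 1) * (s + 2) ^ 2)) +
          κ * t₀ * (50 * κ * ((s + 1) * (2 * K + m + 3))) := by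
          have := mul_le_mul_of_nonneg_left hI (show (0 : ℝ) ≤ κ by linarith)
          linarith
      _ = κ * t₀ * (((m : ℝ) + 1) * (s + 2) ^ 2 + 50 * κ * ((s + 1) * (2 * K + m + 3))) := by ring
      _ < κ * t₀ * (50 * ((m - 1) * K - 1)) :=
          mul_lt_mul_of_pos_left hclaim (mul_pos (by linarith) ht0)
      _ = 50 * κ * t₀ * ((m - 1) * K - 1) := by ring

/-- From the numerical inequality to powers. -/
theorem powers_q {κ m y K d t₀ L s t : ℕ} (hκ : 1 ≤ κ) (hy : 2 ^ (50 * κ) ≤ y)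
    (hI : (d + 1) * (d + 1) ≤ 2 ^ m) (hL : L + t₀ = (d + 1) * (d + 1)) (ht₀ : 1 ≤ t₀)
    (hnum : κ * ((d + 1) * (d + 1)) * (m * (d + 1) + d) +
      50 * κ * t₀ * (κ * (d * (K + m + 2) + d * (K + 1))) < 50 * κ * t₀ * ((m - 1) * K - 1))
    (hst : s + t = (d + 1) * (d + 1)) (hs : s ≤ L) :
    (((d + 1) * (d + 1)).factorial * (2 ^ (m * d + d)) ^ s *
      (2 ^ (m * d + d) * (y ^ (K + m + 2)) ^ d * (y ^ (K + 1)) ^ d) ^ t) ^ κ <
      y ^ (((m - 1) * K - 1) * t) := by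
  obtain ⟨I, hII⟩ : ∃ I, I = (d + 1) * (d + 1) := ⟨_, rfl⟩
  rw [← hII] at hI hL hnum hst ⊢
  have ht : t₀ ≤ t := by omega
  have hy0 : 0 < y := lt_of_lt_of_le (by positivity) hy
  obtain ⟨Q, hQ⟩ : ∃ Q, Q = κ * (d * (K + m + 2) + d * (K + 1)) := ⟨_, rfl⟩
  obtain ⟨N, hN⟩ : ∃ N, N = (m - 1) * K - 1 := ⟨_, rfl⟩
  rw [← hQ, ← hN] at hnum
  rw [← hN]
  have hκt : 0 < 50 * κ * t₀ := by positivity
  have hQN : Q < N := by
    have h1 : 50 * κ * t₀ * Q < 50 * κ * t₀ * N := by omega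
    exact Nat.lt_of_mul_lt_mul_left h1
  obtain ⟨E, rfl⟩ := Nat.exists_eq_add_of_lt hQN
  have hfac : I.factorial ≤ 2 ^ (m * I) := by
    calc I.factorial ≤ I ^ I := Nat.factorial_le_pow _
      _ ≤ (2 ^ m) ^ I := Nat.pow_le_pow_left hI _
      _ = 2 ^ (m * I) := by rw [← pow_mul]
  have h1 : I.factorial * (2 ^ (m * d + d)) ^ s *
      (2 ^ (m * d + d) * (y ^ (K + m + 2)) ^ d * (y ^ (K + 1)) ^ d) ^ t ≤
      2 ^ (I * (m * (d + 1) + d)) * y ^ ((d * (K + m + 2) + d * (K + 1)) * t) := by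
    calc I.factorial * (2 ^ (m * d + d)) ^ s *
          (2 ^ (m * d + d) * (y ^ (K + m + 2)) ^ d * (y ^ (K + 1)) ^ d) ^ t
        ≤ 2 ^ (m * I) * (2 ^ (m * d + d)) ^ s *
          (2 ^ (m * d + d) * (y ^ (K + m + 2)) ^ d * (y ^ (K + 1)) ^ d) ^ t :=
          Nat.mul_le_mul_right _ (Nat.mul_le_mul_right _ hfac)
      _ = 2 ^ (m * I + (m * d + d) * (s + t)) * y ^ ((d * (K + m + 2) + d * (K + 1)) * t) := by
          ring
      _ = 2 ^ (I * (m * (d + 1) + d)) * y ^ ((d * (K + m + 2) + d * (K + 1)) * t) := by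
          rw [hst]
          congr 2
          ring
  have h2 : κ * (I * (m * (d + 1) + d)) < 50 * κ * ((E + 1) * t) := by
    have h3 : κ * (I * (m * (d + 1) + d)) = κ * I * (m * (d + 1) + d) := by ring
    have h4 : 50 * κ * t₀ * (Q + E + 1) = 50 * κ * t₀ * Q + 50 * κ * t₀ * (E + 1) := by ring
    have h5 : 50 * κ * t₀ * (E + 1) ≤ 50 * κ * ((E + 1) * t) := by
      calc 50 * κ * t₀ * (E + 1) = 50 * κ * ((E + 1) * t₀) := by ring
        _ ≤ 50 * κ * ((E + 1) * t) := Nat.mul_le_mul_left _ (Nat.mul_le_mul_left _ ht)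
    rw [h3]
    omega
  calc _ ≤ (2 ^ (I * (m * (d + 1) + d)) * y ^ ((d * (K + m + 2) + d * (K + 1)) * t)) ^ κ :=
        Nat.pow_le_pow_left h1 _
    _ = 2 ^ (κ * (I * (m * (d + 1) + d))) * y ^ (Q * t) := by
        rw [mul_pow, ← pow_mul, ← pow_mul, hQ]
        congr 2
        · ring
        · ring
    _ < 2 ^ (50 * κ * ((E + 1) * t)) * y ^ (Q * t) :=
        Nat.mul_lt_mul_of_pos_right (Nat.pow_lt_pow_right (by norm_num) h2) (by positivity)
    _ = (2 ^ (50 * κ)) ^ ((E + 1) * t) * y ^ (Q * t) := by rw [← pow_mul]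
    _ ≤ y ^ ((E + 1) * t) * y ^ (Q * t) := Nat.mul_le_mul_right _ (Nat.pow_le_pow_left hy _)
    _ = y ^ ((Q + E + 1) * t) := by
        rw [← pow_add]
        congr 1
        ring

end Pool.Agent.MP_88e4f4_nt.TQ
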