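import Pool.Agent.MP_88e4f4_nt.TK.K6
import Pool.Agent.MP_88e4f4_nt.TK.Z9
import Pool.Agent.MP_88e4f4_nt.TQ.Q4
import Pool.Agent.MP_88e4f4_nt.TQ.Y6
import Pool.Agent.MP_88e4f4_nt.TQ.Y7

set_option autoImplicit false

namespace Pool.Agent.MP_88e4f4_nt.TQ

open Pool.Agent.MP_88e4f4_nt.GB Pool.Agent.MP_88e4f4_nt.TK

/-- A lower bound for the larger base. -/
theorem log_lower_q {κ x y m n K : ℕ} (h : Sol x y m n) (hκ : 1 ≤ κ)
    (hgk : y ≤ (Nat.gcd x y) ^ κ) (hK2 : x < y ^ (K + 1)) : m + 1 ≤ κ * (K + 1) := by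
  obtain ⟨hy, hxy, hm, hn, he⟩ := id h
  obtain ⟨hd, -, -⟩ := gcd_facts h
  have h1 : (Nat.gcd x y : ℕ) ^ m < x := by
    have h2 : ((Nat.gcd x y : ℕ) : ℤ) ^ m ≤ (x : ℤ) - y :=
      Int.le_of_dvd (by have : (y : ℤ) < x := by exact_mod_cast hxy
                        linarith) hd
    have h3 : (((Nat.gcd x y : ℕ) ^ m : ℕ) : ℤ) < x := by
      push_cast
      have : (0 : ℤ) < y := by exact_mod_cast (show 0 < y by omega)
      linarith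
    exact_mod_cast h3
  have h6 : x ^ κ < (y ^ (K + 1)) ^ κ := Nat.pow_lt_pow_left hK2 (by omega)
  have h7 : y ^ m < y ^ (κ * (K + 1)) := by
    calc y ^ m ≤ ((Nat.gcd x y) ^ κ) ^ m := Nat.pow_le_pow_left hgk m
      _ = ((Nat.gcd x y) ^ m) ^ κ := by rw [← pow_mul, ← pow_mul, mul_comm]
      _ ≤ x ^ κ := Nat.pow_le_pow_left h1.le κ
      _ < (y ^ (K + 1)) ^ κ := h6
      _ = y ^ (κ * (K + 1)) := by rw [← pow_mul, mul_comm]
  have h8 := (Nat.pow_lt_pow_iff_right (by omega : 1 < y)).1 h7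
  omega

/-- No solution in the middle range. -/
theorem no_mid_q {κ x y m n K : ℕ} (hκ : 1 ≤ κ) (hm : 400 * κ ^ 3 ≤ m) (h : Sol x y m n)
    (hgk : y ≤ (Nat.gcd x y) ^ κ) (hy2 : 2 ^ (50 * κ) ≤ y) (hK : y ^ K ≤ x)
    (hxK : x < y ^ (K + 1)) (hK2 : K < 2 * (m + 1) * (m / (9 * κ ^ 2))) : False := by
  obtain ⟨hy, hxy, hm3, hn, he⟩ := id h
  obtain ⟨hd, hcx, hcy⟩ := gcd_facts h
  have hK1 := log_lower_q h hκ hgk hxK
  obtain ⟨g, hg⟩ : ∃ g, g = Nat.gcd x y := ⟨_, rfl⟩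
  obtain ⟨d, hdd⟩ : ∃ d, d = Nat.sqrt K + 1 := ⟨_, rfl⟩
  obtain ⟨t₀, ht₀⟩ : ∃ t₀, t₀ = ((d + 1) * (d + 1) - K + 1) / 2 := ⟨_, rfl⟩
  obtain ⟨L, hL⟩ : ∃ L, L = (d + 1) * (d + 1) - t₀ := ⟨_, rfl⟩
  obtain ⟨H, hH⟩ : ∃ H, H = t₀ + d := ⟨_, rfl⟩
  obtain ⟨c1, c2, c3, c4, c5, c6, c7⟩ := params_q hκ hm hdd ht₀ hL hH hK1 hK2
  rw [← hg] at hgk hd hcx hcy
  have hg1 : 1 ≤ g := by
    rw [hg]
    exact Nat.gcd_pos_of_pos_left _ (by omega)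
  obtain ⟨p, hp⟩ : ∃ p, p = x / g := ⟨_, rfl⟩
  obtain ⟨q, hq⟩ : ∃ q, q = y / g := ⟨_, rfl⟩
  have hxp : x = g * p := by
    rw [hp, Nat.mul_div_cancel' (by rw [hg]; exact Nat.gcd_dvd_left x y)]
  have hyq : y = g * q := by
    rw [hq, Nat.mul_div_cancel' (by rw [hg]; exact Nat.gcd_dvd_right x y)]
  rw [← hp] at hcx
  rw [← hq] at hcy
  obtain ⟨s1, s2⟩ := sol_curve h hg1 hxp hyq hd
  have hq1 : 1 ≤ q := by
    rcases Nat.eq_zero_or_pos q with h0 | h0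
    · rw [h0, mul_zero] at hyq
      omega
    · exact h0
  have hqp : q < p := by
    have : g * q < g * p := by rw [← hxp, ← hyq]; exact hxy
    exact lt_of_mul_lt_mul_left' this
  have hqy : q ≤ y := by
    rw [hq]
    exact Nat.div_le_self _ _
  have hpx : p ≤ x := by
    rw [hp]
    exact Nat.div_le_self _ _
  have hpn : y ^ ((m - 1) * K) ≤ y ^ n := by
    calc y ^ ((m - 1) * K) = (y ^ K) ^ (m - 1) := by rw [← pow_mul, mul_comm]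
      _ ≤ x ^ (m - 1) := Nat.pow_le_pow_left hK _
      _ ≤ y ^ n := pow_le h
  have hKn : (m - 1) * K ≤ n := (Nat.pow_le_pow_iff_right (by omega : 1 < y)).1 hpn
  obtain ⟨w, hw⟩ : ∃ w, w = (m - 1) * K - 1 := ⟨_, rfl⟩
  have hw1 : w ≤ n - 1 := by omega
  have hw2 : w ≤ (m - 1) * (d + L + 1 - H) := by
    have : (m - 1) * K ≤ (m - 1) * (d + L + 1 - H) := Nat.mul_le_mul_left _ c5
    omega
  have hy1 : (1 : ℤ) ≤ y := by exact_mod_cast (show 1 ≤ y by omega)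
  have hZ : |(1 - (y : ℤ)) * (y : ℤ) ^ (m - 1)| * (q : ℤ) ≤ (y : ℤ) ^ (K + m + 2) := by
    have h1 : |(1 - (y : ℤ)) * (y : ℤ) ^ (m - 1)| ≤ (y : ℤ) ^ m := by
      rw [abs_mul, abs_of_nonpos (by linarith : 1 - (y : ℤ) ≤ 0), abs_of_nonneg (by positivity)]
      calc -(1 - (y : ℤ)) * (y : ℤ) ^ (m - 1) ≤ (y : ℤ) * (y : ℤ) ^ (m - 1) := by
            apply mul_le_mul_of_nonneg_right (by linarith) (by positivity)
        _ = (y : ℤ) ^ m := by rw [← pow_succ', Nat.sub_add_cancel (by omega)]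
    calc |(1 - (y : ℤ)) * (y : ℤ) ^ (m - 1)| * (q : ℤ) ≤ (y : ℤ) ^ m * (y : ℤ) :=
          mul_le_mul h1 (by exact_mod_cast hqy) (by positivity) (by positivity)
      _ = (y : ℤ) ^ (m + 1) := by rw [pow_succ]
      _ ≤ (y : ℤ) ^ (K + m + 2) := pow_le_pow_right₀ hy1 (by omega)
  have hpX : (p : ℤ) ≤ (y : ℤ) ^ (K + m + 2) := by
    have h1 : p ≤ y ^ (K + m + 2) := by
      calc p ≤ x := hpx
        _ ≤ y ^ (K + 1) := hxK.le
        _ ≤ y ^ (K + m + 2) := Nat.pow_le_pow_right (by omega) (by omega)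
    exact_mod_cast h1
  have hz0 : (1 - (y : ℤ)) * (y : ℤ) ^ (m - 1) ≠ 0 := by
    apply mul_ne_zero
    · have : (2 : ℤ) ≤ y := by exact_mod_cast hy
      omega
    · exact pow_ne_zero _ (by exact_mod_cast (show y ≠ 0 by omega))
  obtain ⟨s, t, hst, hs, ht, hmain⟩ := curveq_ineq (m := m) (d := d) (k := d) (L := L) (H := H)
    (w := w) c1 (g : ℤ) ((1 - (y : ℤ)) * (y : ℤ) ^ (m - 1)) (p : ℤ) (q : ℤ)
    ((y : ℤ) ^ (K + m + 2))
    (by exact_mod_cast hg1) hz0 hZ hpX (by exact_mod_cast hq1) (by exact_mod_cast hqp)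
    (Nat.isCoprime_iff_coprime.2 hcx) (Nat.isCoprime_iff_coprime.2 hcy)
    ((pow_dvd_pow _ hw1).trans s1) (by
      refine (pow_dvd_pow _ hw2).trans ?_
      rw [pow_mul]
      exact pow_dvd_pow_of_dvd s2 _) c4
  have hmain' : g ^ (w * t) ≤ ((d + 1) * (d + 1)).factorial * (2 ^ (m * d + d)) ^ s *
        (2 ^ (m * d + d) * (y ^ (K + m + 2)) ^ d * p ^ d) ^ t := by
    exact_mod_cast hmain
  have hfin : y ^ (w * t) ≤ (((d + 1) * (d + 1)).factorial * (2 ^ (m * d + d)) ^ s *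
      (2 ^ (m * d + d) * (y ^ (K + m + 2)) ^ d * (y ^ (K + 1)) ^ d) ^ t) ^ κ := by
    calc y ^ (w * t) ≤ (g ^ κ) ^ (w * t) := Nat.pow_le_pow_left hgk _
      _ = (g ^ (w * t)) ^ κ := by rw [← pow_mul, ← pow_mul, mul_comm]
      _ ≤ _ := by
        refine Nat.pow_le_pow_left (hmain'.trans ?_) κ
        refine Nat.mul_le_mul_left _ (Nat.pow_le_pow_left ?_ t)
        exact Nat.mul_le_mul_left _ (Nat.pow_le_pow_left (hpx.trans hxK.le) d)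
  have hlt := powers_q (m := m) (K := K) hκ hy2 c6 c3 c2 c7 hst hs
  rw [hw] at hfin
  omega

/-- A solution with a large gcd of the bases has a small base `y`. -/
theorem y_bound_q {κ x y m n : ℕ} (hκ : 1 ≤ κ) (hm : 400 * κ ^ 3 ≤ m) (h : Sol x y m n)
    (hgk : y ≤ (Nat.gcd x y) ^ κ) : y < (6 * κ) ^ (20 * κ) := by
  by_contra ha
  push Not at ha
  obtain ⟨hy, hxy, hm3, hn, he⟩ := id h
  have h1y : 1 < y := by omega
  obtain ⟨hd, hcx, hcy⟩ := gcd_facts h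
  have h6 : 6 ^ (20 * κ) ≤ (6 * κ) ^ (20 * κ) := Nat.pow_le_pow_left (by omega) _
  have hb : 2 ^ (50 * κ) ≤ y := by
    calc 2 ^ (50 * κ) = (2 ^ 50) ^ κ := by rw [pow_mul]
      _ ≤ (6 ^ 20) ^ κ := Nat.pow_le_pow_left (by norm_num) _
      _ = 6 ^ (20 * κ) := by rw [← pow_mul]
      _ ≤ y := h6.trans ha
  have hy10 : 10 ≤ y := by
    have h1 : 2 ^ 4 ≤ 2 ^ (50 * κ) := Nat.pow_le_pow_right (by norm_num) (by omega)
    have h2 : (2 : ℕ) ^ 4 = 16 := by norm_num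
    omega
  have hK : y ^ (Nat.log y x) ≤ x := Nat.pow_log_le_self _ (by omega)
  have hxK : x < y ^ (Nat.log y x + 1) := Nat.lt_pow_succ_log_self h1y x
  rcases Nat.lt_or_ge (Nat.log y x) (2 * (m + 1) * (m / (9 * κ ^ 2))) with hK2 | hK2
  · exact no_mid_q hκ hm h hgk hb hK hxK hK2
  · have hg1 : 1 ≤ Nat.gcd x y := Nat.gcd_pos_of_pos_left _ (by omega)
    have hgy : Nat.gcd x y ∣ y := Nat.gcd_dvd_right x y
    refine no_anchor_q (κ := κ) (y := y) (m := m) (a := y) (x := x) (g := Nat.gcd x y) (μ := m)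
      (ν := n) (K := Nat.log y x) hκ hm hy ?_ hg1 hgy le_rfl hxy.le ?_ ?_ ?_ ?_ hK2 hxK ha
    · -- `(y + 1) ^ 10 ≤ y ^ 11`
      have h1 : 10 * (y + 1) ≤ 11 * y := by omega
      have h2 : (10 * (y + 1)) ^ 10 ≤ (11 * y) ^ 10 := Nat.pow_le_pow_left h1 10
      rw [mul_pow, mul_pow] at h2
      have h3 : (11 : ℕ) ^ 10 * y ^ 10 ≤ 10 ^ 10 * y ^ 11 := by
        have h4 : (11 : ℕ) ^ 10 ≤ 10 ^ 10 * y := by
          calc (11 : ℕ) ^ 10 ≤ 10 ^ 10 * 10 := by norm_num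
            _ ≤ 10 ^ 10 * y := Nat.mul_le_mul_left _ hy10
        calc (11 : ℕ) ^ 10 * y ^ 10 ≤ (10 ^ 10 * y) * y ^ 10 := Nat.mul_le_mul_right _ h4
          _ = 10 ^ 10 * y ^ 11 := by ring
      exact Nat.le_of_mul_le_mul_left (h2.trans h3) (by norm_num)
    · rw [← neg_sub]
      exact (dvd_neg).2 hd
    · have h1 : ((Nat.gcd x y : ℕ) : ℤ) ^ n ∣ (y : ℤ) ^ n :=
        pow_dvd_pow_of_dvd (Int.natCast_dvd_natCast.2 hgy) n
      have h2 : (y : ℤ) ^ n ∣ ((y : ℤ) - 1) * (x : ℤ) ^ m + x - y :=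
        ⟨(x : ℤ) - 1, by rw [rel h]; ring⟩
      exact h1.trans h2
    · calc y ^ (m - 1) ≤ y ^ m := Nat.pow_le_pow_right (by omega) (by omega)
        _ ≤ ((Nat.gcd x y) ^ κ) ^ m := Nat.pow_le_pow_left hgk m
        _ = (Nat.gcd x y) ^ (κ * m) := by rw [← pow_mul]
    · calc y ^ ((m - 1) * Nat.log y x) = (y ^ Nat.log y x) ^ (m - 1) := by
            rw [← pow_mul, mul_comm]
        _ ≤ x ^ (m - 1) := Nat.pow_le_pow_left hK _
        _ ≤ y ^ n := pow_le h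
        _ ≤ ((Nat.gcd x y) ^ κ) ^ n := Nat.pow_le_pow_left hgk n
        _ = (Nat.gcd x y) ^ (κ * n) := by rw [← pow_mul]

/-- For fixed `m` there are only finitely many solutions with a large gcd of the bases. -/
theorem finite_q (κ m : ℕ) (hκ : 1 ≤ κ) (hm : 400 * κ ^ 3 ≤ m) :
    {p : ℕ × ℕ × ℕ | Sol p.1 p.2.1 m p.2.2 ∧ p.2.1 ≤ (Nat.gcd p.1 p.2.1) ^ κ}.Finite := by
  have h1 : {p : ℕ × ℕ × ℕ | Sol p.1 p.2.1 m p.2.2 ∧ p.2.1 ≤ (Nat.gcd p.1 p.2.1) ^ κ} ⊆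
      ⋃ y ∈ Finset.range ((6 * κ) ^ (20 * κ)),
        (fun q : ℕ × ℕ => (q.1, y, q.2)) ''
          {p : ℕ × ℕ | Sol p.1 y m p.2 ∧ y ≤ (Nat.gcd p.1 y) ^ κ} := by
    rintro ⟨x, y, n⟩ ⟨hs, hd⟩
    simp only [Set.mem_iUnion]
    refine ⟨y, ?_, (x, n), ⟨hs, hd⟩, rfl⟩
    rw [Finset.mem_range]
    exact y_bound_q hκ hm hs hd
  refine Set.Finite.subset ?_ h1
  apply Set.Finite.biUnion (Finset.finite_toSet _)
  intro y _
  exact (finite_fixed_q κ y m hκ hm).image _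

end Pool.Agent.MP_88e4f4_nt.TQ
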