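import Pool.Agent.MP_88e4f4_nt.TS.M2

set_option autoImplicit false

namespace Pool.Agent.MP_88e4f4_nt.TQ

open Pool.Agent.MP_88e4f4_nt.TS

/-- From the main inequality to an inequality for exponents (compare `exponent_ineq` of `TS/M2.lean`). -/
theorem exponent_ineq_q {κ y m a x K k T D Q R s t : ℕ} (hy : 2 ≤ y) (hya : y ≤ a)
    (hy11 : (y + 1) ^ 10 ≤ a ^ 11) (hT : 30 ≤ T)
    (hxK : x < a ^ (K + 1)) (ha : (4 * R) ^ (10 * κ) ≤ a) (hst : s + t = D * (k + 1))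
    (hcard : D * (k + 1) ≤ T ^ 2)
    (h : a ^ ((m - 1) * K * t) ≤ ((D * (k + 1)).factorial * ((3 * R) ^ T * (y + 1) ^ Q) ^ s *
        ((3 * R) ^ T * a ^ D * x ^ k) ^ t) ^ κ) :
    10 * (m - 1) * K * t ≤
      (T + 11 * κ * Q) * s + (T + 10 * κ * D + 10 * κ * (K + 1) * k) * t := by
  have ha2 : 2 ≤ a := hy.trans hya
  have hTR := sq_mul_pow_le (R := R) hT
  -- the two factors
  have f1 : T ^ 2 * ((3 * R) ^ T * (y + 1) ^ Q) ≤ (4 * R) ^ T * (y + 1) ^ Q := by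
    rw [← mul_assoc]
    exact Nat.mul_le_mul_right _ hTR
  have f2 : T ^ 2 * ((3 * R) ^ T * a ^ D * x ^ k) ≤ (4 * R) ^ T * a ^ D * a ^ ((K + 1) * k) := by
    rw [← mul_assoc, ← mul_assoc, pow_mul]
    exact Nat.mul_le_mul (Nat.mul_le_mul_right _ hTR) (Nat.pow_le_pow_left hxK.le k)
  have hfac : (D * (k + 1)).factorial ≤ (T ^ 2) ^ s * (T ^ 2) ^ t := by
    rw [← pow_add, hst]
    exact (Nat.factorial_le_pow _).trans (Nat.pow_le_pow_left hcard _)
  have g0 : (D * (k + 1)).factorial * ((3 * R) ^ T * (y + 1) ^ Q) ^ s *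
        ((3 * R) ^ T * a ^ D * x ^ k) ^ t ≤ ((4 * R) ^ T * (y + 1) ^ Q) ^ s *
      ((4 * R) ^ T * a ^ D * a ^ ((K + 1) * k)) ^ t := by
    calc (D * (k + 1)).factorial * ((3 * R) ^ T * (y + 1) ^ Q) ^ s *
        ((3 * R) ^ T * a ^ D * x ^ k) ^ t
        ≤ ((T ^ 2) ^ s * (T ^ 2) ^ t) * ((3 * R) ^ T * (y + 1) ^ Q) ^ s *
        ((3 * R) ^ T * a ^ D * x ^ k) ^ t :=
          Nat.mul_le_mul_right _ (Nat.mul_le_mul_right _ hfac)
      _ = (T ^ 2 * ((3 * R) ^ T * (y + 1) ^ Q)) ^ s *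
          (T ^ 2 * ((3 * R) ^ T * a ^ D * x ^ k)) ^ t := by
          rw [mul_pow (T ^ 2) ((3 * R) ^ T * (y + 1) ^ Q) s,
            mul_pow (T ^ 2) ((3 * R) ^ T * a ^ D * x ^ k) t]
          ring
      _ ≤ _ := Nat.mul_le_mul (Nat.pow_le_pow_left f1 s) (Nat.pow_le_pow_left f2 t)
  have g1 : a ^ ((m - 1) * K * t) ≤ (((4 * R) ^ T * (y + 1) ^ Q) ^ s *
      ((4 * R) ^ T * a ^ D * a ^ ((K + 1) * k)) ^ t) ^ κ := h.trans (Nat.pow_le_pow_left g0 κ)
  have hR : ((4 * R) ^ T) ^ (10 * κ) ≤ a ^ T := by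
    rw [← pow_mul, mul_comm T (10 * κ), pow_mul]
    exact Nat.pow_le_pow_left ha T
  have hY : ((y + 1) ^ Q) ^ (10 * κ) ≤ a ^ (11 * κ * Q) := by
    calc ((y + 1) ^ Q) ^ (10 * κ) = ((y + 1) ^ 10) ^ (κ * Q) := by
          rw [← pow_mul, ← pow_mul]
          congr 1
          ring
      _ ≤ (a ^ 11) ^ (κ * Q) := Nat.pow_le_pow_left hy11 _
      _ = a ^ (11 * κ * Q) := by
          rw [← pow_mul]
          congr 1
          ring
  have g2 : a ^ (10 * (m - 1) * K * t) ≤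
      a ^ ((T + 11 * κ * Q) * s + (T + 10 * κ * D + 10 * κ * (K + 1) * k) * t) := by
    calc a ^ (10 * (m - 1) * K * t) = (a ^ ((m - 1) * K * t)) ^ 10 := by
          rw [← pow_mul]
          congr 1
          ring
      _ ≤ ((((4 * R) ^ T * (y + 1) ^ Q) ^ s *
          ((4 * R) ^ T * a ^ D * a ^ ((K + 1) * k)) ^ t) ^ κ) ^ 10 := Nat.pow_le_pow_left g1 10
      _ = (((4 * R) ^ T) ^ (10 * κ) * ((y + 1) ^ Q) ^ (10 * κ)) ^ s *
          (((4 * R) ^ T) ^ (10 * κ) * (a ^ (10 * κ * D) * a ^ (10 * κ * (K + 1) * k))) ^ t := by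
          rw [← pow_mul _ κ 10, mul_comm κ 10,
            mul_pow (((4 * R) ^ T * (y + 1) ^ Q) ^ s), ← pow_mul _ s (10 * κ),
            mul_comm s (10 * κ), pow_mul _ (10 * κ) s, ← pow_mul _ t (10 * κ),
            mul_comm t (10 * κ), pow_mul _ (10 * κ) t]
          congr 2
          · rw [mul_pow]
          · rw [mul_pow, mul_pow, ← pow_mul a, ← pow_mul a, mul_assoc]
            congr 3
            · ring
            · ring
      _ ≤ (a ^ T * a ^ (11 * κ * Q)) ^ s *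
          (a ^ T * (a ^ (10 * κ * D) * a ^ (10 * κ * (K + 1) * k))) ^ t :=
          Nat.mul_le_mul (Nat.pow_le_pow_left (Nat.mul_le_mul hR hY) s)
            (Nat.pow_le_pow_left (Nat.mul_le_mul_right _ hR) t)
      _ = _ := by
          rw [← pow_add, ← pow_add, ← pow_add, ← pow_mul, ← pow_mul, ← pow_add]
          congr 1
          ring
  exact (Nat.pow_le_pow_iff_right (by omega)).1 g2

end Pool.Agent.MP_88e4f4_nt.TQ
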