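import Mathlib

set_option autoImplicit false

namespace Pool.Agent.MP_88e4f4_nt.TQ

/-- The basic inequalities between the parameters. -/
theorem q2_basic {κ m R k K N₀ T D Q : ℕ} (hκ : 1 ≤ κ) (hm : 400 * κ ^ 3 ≤ m) (hR : R = 9 * κ ^ 2)
    (hk : k = m / R)
    (hK : 2 * (m + 1) * k ≤ K) (hN₀ : N₀ = 3 * K / 2) (hT : T = N₀ + (m + 1) * k + K)
    (hD : D = (m * T + N₀) / (k + 1) + 1) (hQ : Q = (D + k) / (m - 1)) :
    9 ≤ R ∧ 44 ≤ k ∧ 400 ≤ m ∧ k * R ≤ m ∧ m + 1 ≤ (k + 1) * R ∧ 9 * k ≤ m ∧ 88 * (m + 1) ≤ K ∧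
      2 * N₀ ≤ 3 * K ∧ 3 * K ≤ 2 * N₀ + 1 ∧ N₀ ≤ T ∧ T ≤ 3 * K ∧
      (k + 1) * (D - 1) ≤ m * T + N₀ ∧ m * T + N₀ + 1 ≤ (k + 1) * D ∧ 1 ≤ D ∧ D ≤ R * T + 1 ∧
      Q * (m - 1) ≤ D + k ∧ D + k + 1 ≤ (Q + 1) * (m - 1) := by
  have hκ2 : 1 ≤ κ ^ 2 := Nat.one_le_pow _ _ hκ
  have hκ3 : 1 ≤ κ ^ 3 := Nat.one_le_pow _ _ hκ
  have hR9 : 9 ≤ R := by omega
  have hR0 : 0 < R := by omega
  have h2 : 400 ≤ m := by omega
  have h1 : 44 ≤ k := by
    rw [hk, Nat.le_div_iff_mul_le hR0, hR]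
    have g : κ ^ 2 ≤ κ ^ 3 := Nat.pow_le_pow_right hκ (by norm_num)
    omega
  have h3 : k * R ≤ m := by
    rw [hk]
    exact Nat.div_mul_le_self m R
  have h4 : m + 1 ≤ (k + 1) * R := by
    rw [hk, mul_comm]
    exact Nat.lt_mul_div_succ m hR0
  have h5 : 9 * k ≤ m := by nlinarith
  have h6 : 88 * (m + 1) ≤ K := by nlinarith
  have h7 : 2 * N₀ ≤ 3 * K := by omega
  have h8 : 3 * K ≤ 2 * N₀ + 1 := by omega
  have h9 : N₀ ≤ T := by
    rw [hT]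
    exact le_trans (Nat.le_add_right _ _) (Nat.le_add_right _ _)
  have h10 : T ≤ 3 * K := by
    have : 2 * ((m + 1) * k) ≤ K := by
      rw [← mul_assoc]
      exact hK
    omega
  have hD1 : D - 1 = (m * T + N₀) / (k + 1) := by rw [hD, Nat.add_sub_cancel]
  have h11 : (k + 1) * (D - 1) ≤ m * T + N₀ := by
    rw [hD1]
    exact Nat.mul_div_le _ _
  have h12 : m * T + N₀ + 1 ≤ (k + 1) * D := by
    rw [hD]
    exact Nat.lt_mul_div_succ (m * T + N₀) (Nat.succ_pos k)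
  have h13 : 1 ≤ D := by
    rw [hD]
    exact Nat.le_add_left _ _
  have h14 : D ≤ R * T + 1 := by
    have g1 : (k + 1) * (D - 1) ≤ (k + 1) * (R * T) := by
      calc (k + 1) * (D - 1) ≤ m * T + N₀ := h11
        _ ≤ (m + 1) * T := by nlinarith
        _ ≤ ((k + 1) * R) * T := Nat.mul_le_mul_right T h4
        _ = (k + 1) * (R * T) := by ring
    have g2 := Nat.le_of_mul_le_mul_left g1 (Nat.succ_pos k)
    omega
  have hm1 : 0 < m - 1 := by omega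
  have h15 : Q * (m - 1) ≤ D + k := by
    rw [hQ]
    exact Nat.div_mul_le_self _ _
  have h16 : D + k + 1 ≤ (Q + 1) * (m - 1) := by
    rw [hQ, mul_comm]
    exact Nat.lt_mul_div_succ (D + k) hm1
  exact ⟨hR9, h1, h2, h3, h4, h5, h6, h7, h8, h9, h10, h11, h12, h13, h14, h15, h16⟩

/-- The final numerical contradiction, a pure inequality. -/
theorem final_numeric_q {κ m R k K N₀ T D Q s t : ℕ} (hκ : 1 ≤ κ) (hm : 400 * κ ^ 3 ≤ m)
    (hR : R = 9 * κ ^ 2) (hk : k = m / R)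
    (hK : 2 * (m + 1) * k ≤ K) (hN₀ : N₀ = 3 * K / 2) (hT : T = N₀ + (m + 1) * k + K)
    (hD : D = (m * T + N₀) / (k + 1) + 1) (hQ : Q = (D + k) / (m - 1))
    (hs : s ≤ T * m) (hst : s + t = D * (k + 1)) :
    (T + 11 * κ * Q) * s + (T + 10 * κ * D + 10 * κ * (K + 1) * k) * t <
      10 * (m - 1) * K * t := by
  obtain ⟨h0, h1, h2, h3, h4, h5, h6, h7, h8, h9, h10, h11, h12, h13, h14, h15, h16⟩ :=
    q2_basic hκ hm hR hk hK hN₀ hT hD hQ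
  obtain ⟨m', rfl⟩ : ∃ m', m = m' + 1 := ⟨m - 1, by omega⟩
  rw [Nat.add_sub_cancel] at h15 h16 ⊢
  rw [hR] at h14 h3
  have hκκ : κ ≤ κ ^ 3 := Nat.le_self_pow (by norm_num) κ
  clear hQ hD hT hN₀ hk h16 h11 hR h4
  zify at *
  have hKpos : (0 : ℤ) < K := by linarith
  have hκ0 : (0 : ℤ) < κ := by linarith
  have hκk : (9 : ℤ) * (κ * k) ≤ m' + 1 := by
    have g1 : (κ : ℤ) * k ≤ κ * (κ * k) := by
      have : (0 : ℤ) ≤ κ * k := by positivity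
      nlinarith
    nlinarith
  have hκ3T : (400 : ℤ) * κ ^ 3 * T ≤ (m' + 1) * (3 * K) :=
    mul_le_mul hm h10 (by positivity) (by positivity)
  have hD400 : (400 : ℤ) * (κ * D) ≤ 27 * ((m' + 1) * K) + (m' + 1) := by
    have g1 : (κ : ℤ) * D ≤ κ * (9 * κ ^ 2 * T + 1) := mul_le_mul_of_nonneg_left h14 hκ0.le
    have g2 : (κ : ℤ) * (9 * κ ^ 2 * T + 1) = 9 * (κ ^ 3 * T) + κ := by ring
    linarith
  have hmK : (400 : ℤ) * K ≤ (m' + 1) * K := mul_le_mul_of_nonneg_right h2 hKpos.le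
  have hQ11 : (4 : ℤ) * (11 * κ * Q) ≤ 3 * K := by
    have g0 : (κ : ℤ) * (Q * m') ≤ κ * (D + k) := mul_le_mul_of_nonneg_left h15 hκ0.le
    have g1 : (4 : ℤ) * (11 * κ * Q) * m' ≤ 3 * K * m' := by nlinarith
    exact le_of_mul_le_mul_right g1 (by linarith)
  have hTQ : (4 : ℤ) * (T + 11 * κ * Q) ≤ 15 * K := by linarith
  have hs3 : (s : ℤ) ≤ 3 * ((m' + 1) * K) := by nlinarith
  have ht : (3 : ℤ) * K + 1 ≤ 2 * t := by nlinarith
  have hKk : (9 : ℤ) * (κ * (K + 1) * k) ≤ (K + 1) * (m' + 1) := by nlinarith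
  have hA : (81 : ℤ) * ((m' + 1) * K) ≤
      10 * (10 * m' * K - (T + 10 * κ * D + 10 * κ * (K + 1) * k)) := by
    nlinarith
  have hL : (4 : ℤ) * ((T + 11 * κ * Q) * s) ≤ 15 * K * (3 * ((m' + 1) * K)) := by
    have g1 : (4 : ℤ) * (T + 11 * κ * Q) * s ≤ 15 * K * s :=
      mul_le_mul_of_nonneg_right hTQ (Int.natCast_nonneg s)
    have g2 : (15 : ℤ) * K * s ≤ 15 * K * (3 * ((m' + 1) * K)) :=
      mul_le_mul_of_nonneg_left hs3 (by linarith)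
    linarith
  have hM : (81 : ℤ) * ((m' + 1) * K) * t ≤
      10 * (10 * m' * K - (T + 10 * κ * D + 10 * κ * (K + 1) * k)) * t :=
    mul_le_mul_of_nonneg_right hA (Int.natCast_nonneg t)
  have hP : (0 : ℤ) < (m' + 1) * K := by nlinarith
  have hN : ((m' + 1) * K : ℤ) * (3 * K + 1) ≤ (m' + 1) * K * (2 * t) :=
    mul_le_mul_of_nonneg_left ht hP.le
  have hPK : (0 : ℤ) < (m' + 1) * K * K := mul_pos hP hKpos
  nlinarith

/-- The side conditions for these parameters. -/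
theorem side_conditions_q {κ m R k K N₀ T D Q N : ℕ} (hκ : 1 ≤ κ) (hm : 400 * κ ^ 3 ≤ m)
    (hR : R = 9 * κ ^ 2) (hk : k = m / R)
    (hK : 2 * (m + 1) * k ≤ K) (hN₀ : N₀ = 3 * K / 2) (hT : T = N₀ + (m + 1) * k + K)
    (hD : D = (m * T + N₀) / (k + 1) + 1) (hQ : Q = (D + k) / (m - 1))
    (hN : N = (k + 1) * (D - 1) + (m + 1) * k + 1 - m * T) :
    N + K ≤ T + 1 ∧ T ≤ D ∧ D ≤ R * T + 1 ∧ (k + 1) * (D - 1) + (m + 1) * k < m * T + N ∧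
      D + k ≤ (Q + 1) * (m - 1) + 1 ∧ 30 ≤ T ∧ D * (k + 1) ≤ T ^ 2 ∧ 1 ≤ K := by
  obtain ⟨h0, h1, h2, h3, h4, h5, h6, h7, h8, h9, h10, h11, h12, h13, h14, h15, h16⟩ :=
    q2_basic hκ hm hR hk hK hN₀ hT hD hQ
  have hkm : k ≤ (m + 1) * k := Nat.le_mul_of_pos_left k (Nat.succ_pos m)
  have hDk : (k + 1) * D = (k + 1) * (D - 1) + (k + 1) := by
    obtain ⟨D', rfl⟩ : ∃ D', D = D' + 1 := ⟨D - 1, by omega⟩
    rw [Nat.add_sub_cancel]
    ring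
  have hTK : K ≤ T := by
    rw [hT]
    exact Nat.le_add_left _ _
  have hmT : (k + 1) * T ≤ m * T := Nat.mul_le_mul_right T (by omega)
  refine ⟨by omega, ?_, h14, by omega, by omega, by omega, ?_, by omega⟩
  · have g1 : (k + 1) * T ≤ (k + 1) * D := by omega
    exact Nat.le_of_mul_le_mul_left g1 (Nat.succ_pos k)
  · have g1 : D * (k + 1) ≤ m * T + N₀ + k + 1 := by
      rw [mul_comm]
      omega
    have g2 : N₀ + k + 1 ≤ T := by omega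
    have g3 : (m + 1) * T ≤ T * T := Nat.mul_le_mul_right T (by omega)
    have g4 : (m + 1) * T = m * T + T := by ring
    rw [pow_two]
    omega

end Pool.Agent.MP_88e4f4_nt.TQ
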