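import Pool.Agent.MP_88e4f4_nt.TK.K2
import Pool.Agent.MP_88e4f4_nt.TQ.Q1
import Pool.Agent.MP_88e4f4_nt.TQ.Q2

set_option autoImplicit false

namespace Pool.Agent.MP_88e4f4_nt.TQ

open Pool.Agent.MP_88e4f4_nt.TS Pool.Agent.MP_88e4f4_nt.TK

/-- Two good approximations `a < x` to the same `g`-adic root, with `x` much larger than `a`, do not
exist. -/
theorem no_anchor_q {κ y m a x g μ ν K : ℕ} (hκ : 1 ≤ κ) (hm : 400 * κ ^ 3 ≤ m) (hy : 2 ≤ y)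
    (hy11 : (y + 1) ^ 10 ≤ a ^ 11) (hg : 1 ≤ g) (hgy : g ∣ y) (hya : y ≤ a) (hax : a ≤ x)
    (hμ : (g : ℤ) ^ μ ∣ (a : ℤ) - x) (hν : (g : ℤ) ^ ν ∣ ((y : ℤ) - 1) * (x : ℤ) ^ m + x - y)
    (h1 : a ^ (m - 1) ≤ g ^ (κ * μ)) (h2 : a ^ ((m - 1) * K) ≤ g ^ (κ * ν))
    (hK : 2 * (m + 1) * (m / (9 * κ ^ 2)) ≤ K) (hxK : x < a ^ (K + 1))
    (ha : (6 * κ) ^ (20 * κ) ≤ a) : False := by
  obtain ⟨R, hR⟩ : ∃ R, R = 9 * κ ^ 2 := ⟨_, rfl⟩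
  obtain ⟨k, hk⟩ : ∃ k, k = m / R := ⟨_, rfl⟩
  obtain ⟨N₀, hN₀⟩ : ∃ N₀, N₀ = 3 * K / 2 := ⟨_, rfl⟩
  obtain ⟨T, hT⟩ : ∃ T, T = N₀ + (m + 1) * k + K := ⟨_, rfl⟩
  obtain ⟨D, hD⟩ : ∃ D, D = (m * T + N₀) / (k + 1) + 1 := ⟨_, rfl⟩
  obtain ⟨Q, hQ⟩ : ∃ Q, Q = (D + k) / (m - 1) := ⟨_, rfl⟩
  obtain ⟨N, hN⟩ : ∃ N, N = (k + 1) * (D - 1) + (m + 1) * k + 1 - m * T := ⟨_, rfl⟩
  have hm2 : 2 ≤ m := by
    have : 1 ≤ κ ^ 3 := Nat.one_le_pow _ _ hκ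
    omega
  rw [← hR, ← hk] at hK
  obtain ⟨c1, c2, c3, c4, c5, c6, c7, c8⟩ := side_conditions_q hκ hm hR hk hK hN₀ hT hD hQ hN
  obtain ⟨w, hw⟩ : ∃ w, w = min ν (μ * K) := ⟨_, rfl⟩
  have hwν : w ≤ ν := by rw [hw]; exact min_le_left _ _
  have hwμ : w ≤ μ * K := by rw [hw]; exact min_le_right _ _
  have hR1 : 1 ≤ R := by
    have : 1 ≤ κ ^ 2 := Nat.one_le_pow _ _ hκ
    omega
  obtain ⟨s, t, hst, hs, _, hmain⟩ := anchor_ineq_g (R := R) hy hm2 hya hax c8 hR1 hg hgy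
    hμ hν hwν hwμ c1 c2 c3 c4 c5
  have hyw : a ^ ((m - 1) * K) ≤ g ^ (κ * w) := by
    rcases min_choice ν (μ * K) with h | h
    · rw [hw, h]
      exact h2
    · rw [hw, h, ← mul_assoc, pow_mul, pow_mul]
      exact Nat.pow_le_pow_left h1 K
  have h5 : a ^ ((m - 1) * K * t) ≤ ((D * (k + 1)).factorial * ((3 * R) ^ T * (y + 1) ^ Q) ^ s *
        ((3 * R) ^ T * a ^ D * x ^ k) ^ t) ^ κ := by
    calc a ^ ((m - 1) * K * t) = (a ^ ((m - 1) * K)) ^ t := by rw [pow_mul]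
      _ ≤ (g ^ (κ * w)) ^ t := Nat.pow_le_pow_left hyw t
      _ = (g ^ (w * t)) ^ κ := by rw [← pow_mul, ← pow_mul]; congr 1; ring
      _ ≤ _ := Nat.pow_le_pow_left hmain κ
  have ha4 : (4 * R) ^ (10 * κ) ≤ a := by
    have e : (4 * R) ^ (10 * κ) = (6 * κ) ^ (20 * κ) := by
      rw [hR, show 4 * (9 * κ ^ 2) = (6 * κ) ^ 2 by ring, ← pow_mul]
      congr 1
      ring
    rw [e]
    exact ha
  have e1 := exponent_ineq_q (m := m) hy hya hy11 c6 hxK ha4 hst c7 h5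
  have e2 := final_numeric_q hκ hm hR hk hK hN₀ hT hD hQ hs hst
  omega

end Pool.Agent.MP_88e4f4_nt.TQ
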