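import Pool.Agent.MP_88e4f4_nt.TK.Z1
import Pool.Agent.MP_88e4f4_nt.TS.A2
import Pool.Agent.MP_88e4f4_nt.TS.A4

set_option autoImplicit false

namespace Pool.Agent.MP_88e4f4_nt.TQ

open Polynomial Pool.Agent.MP_88e4f4_nt.TS Pool.Agent.MP_88e4f4_nt.TK

theorem y1_mono {r : ℕ} (i : Fin r → ℕ) (hi : StrictMono i) (a : ℕ) (ha : a < r) :
    ∀ (n : ℕ) (hn : a + n < r), i ⟨a, ha⟩ + n ≤ i ⟨a + n, hn⟩ := by
  intro n
  induction n with
  | zero => intro hn; simp
  | succ n ih =>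
    intro hn
    have h1 := ih (by omega)
    have h2 : i ⟨a + n, by omega⟩ < i ⟨a + (n + 1), hn⟩ := hi (by simp [Fin.lt_def])
    omega

theorem y1_natDegree {F : Type*} [Field F] (n : ℕ) (B : F[X]) (hB : B ≠ 0) :
    (X ^ n * B).natDegree = n + B.natDegree := by
  rw [natDegree_mul (pow_ne_zero _ X_ne_zero) hB, natDegree_X_pow]

theorem y1_coprime {F : Type*} [Field F] {x y : F} (h : x ≠ y) (a b : ℕ) :
    IsCoprime ((X - C x) ^ a) ((X - C y) ^ b) :=
  (isCoprime_X_sub_C_of_isUnit_sub (sub_ne_zero.2 h).isUnit).pow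

/-- Zero estimate on the curve `z = (v - 1) / v ^ m`, for a family of polynomials
`X ^ (m (d - i a)) * B a`, `i` strictly increasing: the Wronskian is not zero, since the degrees are
distinct; it is divisible by a large power of `X`. -/
theorem curveq_est_aux {F : Type*} [Field F] [CharZero F] {m d k L H r : ℕ} (hr : 1 ≤ r)
    (hk : k < m) (u c : F) (hu0 : u ≠ 0) (hu1 : u ≠ 1) (hc : c ≠ 0)
    (i : Fin r → ℕ) (hi : StrictMono i) (hid : ∀ a, i a ≤ d) (B : Fin r → F[X])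
    (hB : ∀ a, (B a).natDegree ≤ k) (hB0 : ∀ a, B a ≠ 0)
    (h1 : (X - C 1) ^ L ∣ ∑ a, X ^ (m * (d - i a)) * B a)
    (h2 : (X - C u) ^ H ∣ ∑ a, C (c ^ (i a)) * (X ^ (m * (d - i a)) * B a)) :
    L + H ≤ (d + 1) * k + 2 * d := by
  classical
  have hr0 : 0 < r := hr
  obtain ⟨Φ, hΦ⟩ : ∃ Φ : Fin r → F[X], Φ = fun a => X ^ (m * (d - i a)) * B a := ⟨_, rfl⟩
  have hΦa : ∀ a, Φ a = X ^ (m * (d - i a)) * B a := fun a => by rw [hΦ]
  obtain ⟨W, hW⟩ : ∃ W : F[X], W =
      (Matrix.of fun i l : Fin r => derivative^[(l : ℕ)] (Φ i)).det := ⟨_, rfl⟩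
  have hnd : ∀ a, (Φ a).natDegree = m * (d - i a) + (B a).natDegree := fun a => by
    rw [hΦa, y1_natDegree _ _ (hB0 a)]
  have hΦ0 : ∀ a, Φ a ≠ 0 := by
    intro a
    rw [hΦa]
    exact mul_ne_zero (pow_ne_zero _ X_ne_zero) (hB0 a)
  -- distinct degrees
  have hanti : ∀ a b, a < b → (Φ b).natDegree < (Φ a).natDegree := by
    intro a b hab
    rw [hnd, hnd]
    have g1 := hi hab
    have g2 := hid b
    have g3 := hB b
    obtain ⟨s, hs⟩ : ∃ s, d - i a = (d - i b) + s + 1 := ⟨(d - i a) - (d - i b) - 1, by omega⟩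
    rw [hs]
    have g5 : m * (d - i b + s + 1) = m * (d - i b) + m * s + m := by ring
    rw [g5]
    omega
  have hinj : Function.Injective fun a => (Φ a).natDegree := by
    intro a b hab
    simp only at hab
    rcases lt_trichotomy a b with h | h | h
    · have := hanti a b h
      omega
    · exact h
    · have := hanti b a h
      omega
  have hW0 : W ≠ 0 := by
    rw [hW]
    exact wronskian_ne_zero_of_distinct Φ hΦ0 hinj
  -- (1)
  have d1 : (X - C (0 : F)) ^ (∑ a, m * (d - i a) - r * (r - 1) / 2) ∣ W := by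
    rw [hW]
    apply wronskian_dvd Φ (fun a => m * (d - i a)) 0
    intro a
    rw [hΦa, C_0, sub_zero]
    exact Dvd.intro _ rfl
  -- (2)
  have d2 : (X - C (1 : F)) ^ (L - (r - 1)) ∣ W := by
    rw [hW]
    apply pow_dvd_wronskian Φ (fun _ => 1) _ 1
    · rw [hΦ]
      simpa using h1
    · intro h
      exact one_ne_zero (congrFun h ⟨0, hr0⟩)
  -- (3)
  have d3 : (X - C u) ^ (H - (r - 1)) ∣ W := by
    rw [hW]
    apply pow_dvd_wronskian Φ (fun a => c ^ (i a)) _ u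
    · rw [hΦ]
      exact h2
    · intro h
      exact pow_ne_zero _ hc (congrFun h ⟨0, hr0⟩)
  -- (4)
  have d4 : W.natDegree ≤ ∑ a, (Φ a).natDegree - r * (r - 1) / 2 := by
    rw [hW]
    exact wronskian_natDegree Φ
  -- the product
  have d12 := (y1_coprime (F := F) (x := 0) (y := 1) (by norm_num)
    (∑ a, m * (d - i a) - r * (r - 1) / 2) (L - (r - 1))).mul_dvd d1 d2
  have hcop3 : IsCoprime ((X - C (0 : F)) ^ (∑ a, m * (d - i a) - r * (r - 1) / 2) *
      (X - C (1 : F)) ^ (L - (r - 1))) ((X - C u) ^ (H - (r - 1))) :=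
    IsCoprime.mul_left (y1_coprime hu0.symm _ _) (y1_coprime hu1.symm _ _)
  have d123 := hcop3.mul_dvd d12 d3
  have hdeg := natDegree_le_of_dvd d123 hW0
  have n1 : (X - C (0 : F)) ^ (∑ a, m * (d - i a) - r * (r - 1) / 2) ≠ 0 :=
    pow_ne_zero _ (X_sub_C_ne_zero 0)
  have n2 : (X - C (1 : F)) ^ (L - (r - 1)) ≠ 0 := pow_ne_zero _ (X_sub_C_ne_zero 1)
  have n3 : (X - C u) ^ (H - (r - 1)) ≠ 0 := pow_ne_zero _ (X_sub_C_ne_zero u)
  rw [natDegree_mul (mul_ne_zero n1 n2) n3, natDegree_mul n1 n2, natDegree_pow, natDegree_pow,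
    natDegree_pow, natDegree_X_sub_C, natDegree_X_sub_C, natDegree_X_sub_C, mul_one, mul_one,
    mul_one] at hdeg
  -- sums
  have hsumi : r * (r - 1) / 2 ≤ ∑ a, m * (d - i a) := by
    rw [← Finset.sum_range_id, ← Finset.sum_range_reflect,
      ← Fin.sum_univ_eq_sum_range (fun j => r - 1 - j) r]
    apply Finset.sum_le_sum
    intro a _
    have h7 := y1_mono i hi a a.2 (r - 1 - a) (by have := a.2; omega)
    have h8 := hid ⟨a + (r - 1 - a), by have := a.2; omega⟩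
    have h9 : i ⟨(a : ℕ), a.2⟩ = i a := rfl
    rw [h9] at h7
    have h10 : r - 1 - a ≤ d - i a := by omega
    exact h10.trans (Nat.le_mul_of_pos_left _ (by omega))
  have hsumn : ∑ a, (Φ a).natDegree ≤ ∑ a, m * (d - i a) + r * k := by
    have : ∑ a, (Φ a).natDegree ≤ ∑ a, (m * (d - i a) + k) := by
      apply Finset.sum_le_sum
      intro a _
      rw [hnd]
      have := hB a
      omega
    refine this.trans_eq ?_
    rw [Finset.sum_add_distrib, Finset.sum_const, Finset.card_univ, Fintype.card_fin, smul_eq_mul]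
  have hlast := y1_mono i hi 0 hr0 (r - 1) (by omega)
  have hlast2 := hid ⟨0 + (r - 1), by omega⟩
  generalize ∑ a, (Φ a).natDegree = T at *
  generalize ∑ a, m * (d - i a) = V at *
  generalize hqq : r * (r - 1) / 2 = q at *
  have hrd : r ≤ d + 1 := by omega
  have e1 : r * k ≤ (d + 1) * k := Nat.mul_le_mul_right k hrd
  omega

/-- Zero estimate on the curve. -/
theorem curveq_est {F : Type*} [Field F] [CharZero F] {m d k L H : ℕ}
    (hk : k < m) (u c : F) (hu0 : u ≠ 0) (hu1 : u ≠ 1) (hc : c ≠ 0) (B : ℕ → F[X])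
    (hB : ∀ i ≤ d, (B i).natDegree ≤ k) (hB0 : ∃ i ≤ d, B i ≠ 0)
    (h1 : (X - C 1) ^ L ∣ ∑ i ∈ Finset.range (d + 1), X ^ (m * (d - i)) * B i)
    (h2 : (X - C u) ^ H ∣ ∑ i ∈ Finset.range (d + 1), C (c ^ i) * (X ^ (m * (d - i)) * B i)) :
    L + H ≤ (d + 1) * k + 2 * d := by
  classical
  obtain ⟨I, hI⟩ : ∃ I : Finset ℕ, I = (Finset.range (d + 1)).filter (fun i => B i ≠ 0) := ⟨_, rfl⟩
  have hsum : ∀ G : ℕ → F[X], (∀ i, B i = 0 → G i = 0) →
      ∑ i ∈ Finset.range (d + 1), G i = ∑ a : Fin I.card, G (I.orderEmbOfFin rfl a) := by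
    intro G hG
    have h3 : ∑ i ∈ Finset.range (d + 1), G i = ∑ i ∈ I, G i := by
      rw [hI]
      refine (Finset.sum_filter_of_ne ?_).symm
      intro i _ hi hB
      exact hi (hG i hB)
    have h4 := Finset.map_orderEmbOfFin_univ I rfl
    calc ∑ i ∈ Finset.range (d + 1), G i = ∑ i ∈ I, G i := h3
      _ = ∑ i ∈ Finset.map (I.orderEmbOfFin rfl).toEmbedding Finset.univ, G i := by rw [h4]
      _ = ∑ a : Fin I.card, G (I.orderEmbOfFin rfl a) := Finset.sum_map _ _ _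
  have hmem : ∀ a : Fin I.card, I.orderEmbOfFin rfl a ≤ d ∧ B (I.orderEmbOfFin rfl a) ≠ 0 := by
    intro a
    have h3 : I.orderEmbOfFin rfl a ∈ I := Finset.orderEmbOfFin_mem I rfl a
    have h4 : ∀ n, n ∈ I → n ≤ d ∧ B n ≠ 0 := by
      intro n hn
      rw [hI, Finset.mem_filter, Finset.mem_range] at hn
      exact ⟨by omega, hn.2⟩
    exact h4 _ h3
  have hr : 1 ≤ I.card := by
    obtain ⟨i, hi, hi0⟩ := hB0
    refine Finset.card_pos.2 ⟨i, ?_⟩
    rw [hI, Finset.mem_filter, Finset.mem_range]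
    exact ⟨by omega, hi0⟩
  rw [hsum _ (fun i hi => by rw [hi, mul_zero])] at h1
  rw [hsum _ (fun i hi => by rw [hi, mul_zero, mul_zero])] at h2
  exact curveq_est_aux hr hk u c hu0 hu1 hc (fun a => I.orderEmbOfFin rfl a)
    (I.orderEmbOfFin rfl).strictMono (fun a => (hmem a).1) (fun a => B (I.orderEmbOfFin rfl a))
    (fun a => hB _ (hmem a).1) (fun a => (hmem a).2) h1 h2

end Pool.Agent.MP_88e4f4_nt.TQ
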